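import Pool.Agent.K6.H97.AE.Stm

set_option autoImplicit false

/-! Piece AL2 (helper96): from the relations to commuting idempotents. -/

namespace Pool.Agent.K6.H97.AE

theorem t_AL2 (h : S_ALG) : S_AL2 := by
  classical
  intro A _ hu n hn g h1 h2 h3 h4
  refine h A hu n hn (fun k => g k k) h1 (fun k l => ?_) ?_
  · rcases eq_or_ne k l with rfl | hkl
    · rfl
    · have a := h2 k l hkl
      have b := h3 k l hkl
      have : g k k * g l l + g k l * g l k = g l l * g k k + g k l * g l k := by rw [a, b]
      exact add_right_cancel this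
  · have e1 : ∀ k l, g k l * g l k = g k k - g k k * g l l + if k = l then g k k else 0 := by
      intro k l
      rcases eq_or_ne k l with rfl | hkl
      · rw [if_pos rfl, h1 k]
        abel
      · rw [if_neg hkl, add_zero]
        exact eq_sub_of_add_eq' (h2 k l hkl)
    have e2 : (∑ k, ∑ l, g k l * g l k) = (n : A) * (∑ k, g k k) - (∑ k, g k k) * (∑ k, g k k) +
        ∑ k, g k k := by
      simp only [e1]
      simp only [Finset.sum_add_distrib, Finset.sum_sub_distrib, Finset.sum_const,
        Finset.card_univ, Fintype.card_fin, Finset.sum_ite_eq, Finset.mem_univ, if_true]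
      rw [Finset.sum_mul_sum, ← Finset.smul_sum, nsmul_eq_mul]
    rw [e2] at h4
    have hn1 : (n : A) * (∑ k, g k k) = (∑ k, g k k) * n := (Nat.cast_commute n _).eq
    generalize (∑ k, g k k) = E at *
    have e5 : (2 * E - ((n : A) + 1)) * (2 * E - ((n : A) + 1)) =
        ((n : A) + 1) * ((n : A) + 1) - 4 * ((n : A) * E - E * E + E) := by
      have two : (2 : A) * E = E + E := two_mul E
      have four : ∀ x : A, (4 : A) * x = x + x + (x + x) := fun x => by
        rw [show (4 : A) = 2 + 2 by norm_num, add_mul, two_mul]
      rw [two, four]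
      simp only [mul_sub, sub_mul, mul_add, add_mul, mul_one, one_mul, hn1]
      abel
    rw [e5, h4, sub_self]

end Pool.Agent.K6.H97.AE
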