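import Pool.Agent.K6.H97.AE.Stm

set_option autoImplicit false

/-! Piece ALG (helper96): commuting idempotents whose sum cannot be a half integer. -/

namespace Pool.Agent.K6.H97.AE

namespace ALG

/-- the product of the idempotents in `S` and the complementary ones outside -/
def PP {B : Type} [CommRing B] {n : ℕ} (e : Fin n → B) (S : Finset (Fin n)) : B :=
  (∏ k ∈ S, e k) * ∏ k ∈ Finset.univ \ S, (1 - e k)

theorem sum_PP {B : Type} [CommRing B] {n : ℕ} (e : Fin n → B) :
    ∑ S ∈ (Finset.univ : Finset (Fin n)).powerset, PP e S = 1 := by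
  classical
  have h := Finset.prod_add e (fun k => 1 - e k) (Finset.univ : Finset (Fin n))
  have h1 : ∏ k : Fin n, (e k + (1 - e k)) = 1 := by
    refine Finset.prod_eq_one fun k _ => by ring
  rw [h1] at h
  rw [h]
  rfl

theorem mul_PP {B : Type} [CommRing B] {n : ℕ} {e : Fin n → B} (he : ∀ k, e k * e k = e k)
    (S : Finset (Fin n)) (k : Fin n) : e k * PP e S = if k ∈ S then PP e S else 0 := by
  classical
  unfold PP
  split_ifs with hk
  · rw [← Finset.mul_prod_erase S e hk]
    linear_combination (he k) * ((∏ x ∈ S.erase k, e x) * ∏ k ∈ Finset.univ \ S, (1 - e k))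
  · have hk' : k ∈ Finset.univ \ S := by simp [hk]
    rw [← Finset.mul_prod_erase _ (fun k => 1 - e k) hk']
    linear_combination -(he k) * ((∏ x ∈ S, e x) * ∏ x ∈ (Finset.univ \ S).erase k, (1 - e x))

theorem sum_mul_PP {B : Type} [CommRing B] {n : ℕ} {e : Fin n → B} (he : ∀ k, e k * e k = e k)
    (S : Finset (Fin n)) : (∑ k, e k) * PP e S = (S.card : B) * PP e S := by
  classical
  rw [Finset.sum_mul, Finset.sum_congr rfl (fun k _ => mul_PP he S k)]
  rw [← Finset.sum_filter]
  simp

end ALG

theorem t_ALG : S_ALG := by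
  classical
  intro A _ hu n hn e he hc h
  letI : CommRing (Subring.closure (Set.range e)) := Subring.closureCommRingOfComm (by
    rintro _ ⟨k, rfl⟩ _ ⟨l, rfl⟩
    exact hc k l)
  obtain ⟨φ, e', hφ⟩ : ∃ (φ : (Subring.closure (Set.range e)) →+* A)
      (e' : Fin n → Subring.closure (Set.range e)), (∀ k, φ (e' k) = e k) ∧
        (∀ k, e' k * e' k = e' k) := by
    refine ⟨(Subring.closure (Set.range e)).subtype,
      fun k => ⟨e k, Subring.subset_closure ⟨k, rfl⟩⟩, fun k => rfl, fun k => ?_⟩
    exact Subtype.ext (he k)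
  obtain ⟨h1, h2⟩ := hφ
  have hz : ∀ S ∈ (Finset.univ : Finset (Fin n)).powerset, φ (ALG.PP e' S) = 0 := by
    intro S _
    have e1 : (2 * (∑ k, e' k) - ((n : Subring.closure (Set.range e)) + 1)) *
        ((2 * (∑ k, e' k) - ((n : Subring.closure (Set.range e)) + 1)) * ALG.PP e' S) =
        (((2 * (S.card : ℤ) - (n + 1)) ^ 2 : ℤ) : Subring.closure (Set.range e)) *
          ALG.PP e' S := by
      have e2 := ALG.sum_mul_PP h2 S
      push_cast
      linear_combination (2 * (2 * (∑ k, e' k) - ((n : Subring.closure (Set.range e)) + 1)) +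
        2 * (2 * (S.card : Subring.closure (Set.range e)) - (n + 1))) * e2
    have e3 := congrArg φ e1
    rw [← mul_assoc, map_mul, map_mul φ (2 * _ - _), map_mul φ (Int.cast _), map_intCast] at e3
    have e4 : φ (2 * (∑ k, e' k) - ((n : Subring.closure (Set.range e)) + 1)) =
        2 * (∑ k, e k) - ((n : A) + 1) := by
      rw [map_sub, map_mul, map_add, map_sum, map_natCast, map_one, map_ofNat]
      simp only [h1]
    rw [e4, h, zero_mul] at e3
    have hm : (2 * (S.card : ℤ) - (n + 1)) ^ 2 ≠ 0 := by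
      obtain ⟨r, hr⟩ := hn
      have : 2 * (S.card : ℤ) - (n + 1) ≠ 0 := by omega
      exact pow_ne_zero 2 this
    exact ((hu _ hm).mul_right_eq_zero).1 e3.symm
  have := congrArg φ (ALG.sum_PP e')
  rw [map_sum, Finset.sum_eq_zero hz, map_one] at this
  exact this.symm

end Pool.Agent.K6.H97.AE
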