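import Pool.Agent.K6.H97.AE.Stm2
import Pool.Agent.Results.MP_9667ca_an.OddDimensions

set_option autoImplicit false

open Filter Topology ComplexConjugate
open scoped InnerProductSpace

namespace Pool.Agent.K6.H97.AE

open Pool.Agent.Helper547.Alpha

theorem a_core (hKL : S_KL) (hC3 : S_C3) (hIDL : S_IDL) (hREL : S_REL) (hAL2 : S_AL2)
    (hQUO : S_QUO) (n : ℕ) (hn : 1 ≤ n) (he : Even n) (K : ℕ → Type)
    [∀ t, NormedAddCommGroup (K t)] [∀ t, InnerProductSpace ℂ (K t)] [∀ t, CompleteSpace (K t)]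
    (M v : ∀ t, Fin n → (K t →L[ℂ] K t)) (ξ η : ∀ t, K t) (hS : SD n K M v ξ η) : Small η := by
  have h1 := fun z hz => (hKL n hn K M v ξ η hS z hz).1
  have h3 := hC3 n hn K M v ξ η hS
  obtain ⟨i1, i2, i3⟩ := hIDL n hn K M v ξ η hS h3
  obtain ⟨r1, r2, r3, r4⟩ := hREL n hn K M v ξ η hS h1 h3 i1 i2 i3
  have i0 : InI v η (0 : FreeAlgebra ℂ (Fin n × Fin n)) := by
    unfold InI Small
    simp
  obtain ⟨A, _, f, hf⟩ := hQUO (FreeAlgebra ℂ (Fin n × Fin n)) (InI v η) i0 i1 i2 i3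
  have hint : ∀ m : ℤ, m ≠ 0 → IsUnit (m : A) := by
    intro m hm
    have hmc : (m : ℂ) ≠ 0 := by exact_mod_cast hm
    have e1 : f (algebraMap ℂ _ (m : ℂ)) = (m : A) := by
      rw [map_intCast, map_intCast]
    refine isUnit_iff_exists.2 ⟨f (algebraMap ℂ _ ((m : ℂ)⁻¹)), ?_, ?_⟩
    · rw [← e1, ← map_mul, ← map_mul, mul_inv_cancel₀ hmc, map_one, map_one]
    · rw [← e1, ← map_mul, ← map_mul, inv_mul_cancel₀ hmc, map_one, map_one]
  have h10 : (1 : A) = 0 := by
    apply hAL2 A hint n he (fun i j => f (ff i j))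
    · intro k
      have := (hf _).2 (r1 k)
      rw [map_sub, map_mul, sub_eq_zero] at this
      exact this
    · intro k l hkl
      have := (hf _).2 (r2 k l hkl)
      rw [map_sub, map_add, map_mul, map_mul, sub_eq_zero] at this
      exact this
    · intro k l hkl
      have := (hf _).2 (r3 k l hkl)
      rw [map_sub, map_add, map_mul, map_mul, sub_eq_zero] at this
      exact this
    · have := (hf _).2 r4
      rw [map_sub, sub_eq_zero, map_sum] at this
      simp only [map_sum, map_mul] at this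
      rw [this]
      have e2 : (4 : A) * f (algebraMap ℂ _ (gam n ^ 2)) = f (algebraMap ℂ _ (4 * gam n ^ 2)) := by
        rw [map_mul, map_mul]
        congr 1
        rw [map_ofNat, map_ofNat]
      rw [e2]
      have e3 : (4 : ℂ) * gam n ^ 2 = ((n : ℂ) + 1) * ((n : ℂ) + 1) := by
        unfold gam; ring
      rw [e3, map_mul, map_mul, map_add, map_add, map_natCast, map_natCast, map_one, map_one]
  have h11 : InI v η (1 : FreeAlgebra ℂ (Fin n × Fin n)) := (hf 1).1 (by rw [map_one, h10])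
  unfold InI at h11
  simpa using h11

theorem a_even (hKL : S_KL) (hC3 : S_C3) (hIDL : S_IDL) (hREL : S_REL) (hAL2 : S_AL2)
    (hQUO : S_QUO) (hNRM : S_NRM) (n : ℕ) (hn : 1 ≤ n) (he : Even n) :
    alpha (EuclideanSpace ℂ (Fin n)) < ((n : ℝ) + 1) / 2 := by
  by_contra hcon
  push Not at hcon
  obtain ⟨K, i1, i2, i3, M, v, ξ, η, hS, hη⟩ := hNRM n hn hcon
  exact hη (a_core hKL hC3 hIDL hREL hAL2 hQUO n hn he K M v ξ η hS)

theorem a_space (hL2 : ∀ n : ℕ, 1 ≤ n → Even n →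
      alpha (EuclideanSpace ℂ (Fin n)) < ((n : ℝ) + 1) / 2)
    (n : ℕ) (hn : 1 ≤ n) (he : Even n) (E : Type) [NormedAddCommGroup E] [NormedSpace ℂ E]
    [FiniteDimensional ℂ E] (hE : Module.finrank ℂ E = n) : alpha E < ((n : ℝ) + 1) / 2 := by
  by_contra hcon
  push Not at hcon
  obtain ⟨e⟩ := Pool.Agent.Helper150.Al.euclid_of_alpha hn hE hcon
  rw [Pool.Agent.Helper150.Al.alpha_congr e] at hcon
  exact absurd (hL2 n hn he) (not_lt.2 hcon)

open Pool.Agent.Results.MP_9667ca_an.OddDimensions in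
/-- the supremum is attained -/
theorem a_att (hBM : S_BM) (hCPT : S_CPT) (n : ℕ) (hn : 1 ≤ n) :
    ∃ (E : Type) (_ : NormedAddCommGroup E) (_ : NormedSpace ℂ E), FiniteDimensional ℂ E ∧
      Module.finrank ℂ E = n ∧ alpha E = alphaN n := by
  -- nearly optimal spaces
  have hne : {r : ℝ | ∃ (E : Type) (_ : NormedAddCommGroup E) (_ : NormedSpace ℂ E),
      FiniteDimensional ℂ E ∧ Module.finrank ℂ E = n ∧ r = alpha E}.Nonempty :=
    ⟨_, EuclideanSpace ℂ (Fin n), inferInstance, inferInstance, inferInstance, by simp, rfl⟩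
  have hex : ∀ t : ℕ, ∃ (E : Type) (_ : NormedAddCommGroup E) (_ : NormedSpace ℂ E),
      FiniteDimensional ℂ E ∧ Module.finrank ℂ E = n ∧ alphaN n - 1 / ((t : ℝ) + 1) < alpha E := by
    intro t
    have hpos : (0 : ℝ) < 1 / ((t : ℝ) + 1) := by positivity
    obtain ⟨r, ⟨E, i1, i2, i3, hd, rfl⟩, hr⟩ := exists_lt_of_lt_csSup hne
      (show alphaN n - 1 / ((t : ℝ) + 1) < sSup _ from by
        unfold alphaN
        linarith)
    exact ⟨E, i1, i2, i3, hd, hr⟩
  choose X i1 i2 i3 hd hr using hex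
  obtain ⟨E, j1, j2, j3, hE, hlim⟩ := @hCPT n hn X i1 i2 i3 hd
  refine ⟨E, j1, j2, j3, hE, le_antisymm (@le_alphaN n E j1 j2 j3 hE) ?_⟩
  -- `alphaN n ≤ α(E)` up to any error
  have hα0 : 0 ≤ alpha E := by
    unfold alpha
    apply Real.sSup_nonneg
    rintro r ⟨m, x, hx, rfl⟩
    unfold maxNorm
    apply Real.sSup_nonneg
    rintro r ⟨H, _, _, _, u, hu, rfl⟩
    unfold opNorm
    exact Real.sInf_nonneg fun C hC => hC.1
  have key : ∀ δ : ℝ, 0 < δ → alphaN n ≤ (1 + δ) * (1 + δ) * alpha E + δ := by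
    intro δ hδ
    obtain ⟨N, hN⟩ := exists_nat_gt (1 / δ)
    obtain ⟨t, ht, e, he1, he2⟩ := hlim δ hδ N
    have h1 := @hBM E (X t) j1 j2 (i1 t) (i2 t) j3 (i3 t) e (1 + δ) (1 + δ) (by linarith)
      (by linarith) he1 he2
    have h2 := hr t
    have h3 : 1 / ((t : ℝ) + 1) ≤ δ := by
      rw [div_le_iff₀ (by positivity)]
      have h4 : (N : ℝ) ≤ t := by exact_mod_cast ht
      have h5 : 1 < δ * N := by
        rw [div_lt_iff₀ hδ] at hN
        linarith
      nlinarith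
    linarith
  have hlim2 : Tendsto (fun δ : ℝ => (1 + δ) * (1 + δ) * alpha E + δ) (𝓝[>] 0)
      (𝓝 ((1 + 0) * (1 + 0) * alpha E + 0)) := by
    apply Tendsto.mono_left _ nhdsWithin_le_nhds
    apply Continuous.tendsto
    fun_prop
  have := ge_of_tendsto hlim2 (by
    filter_upwards [self_mem_nhdsWithin] with δ hδ
    exact key δ hδ)
  simpa using this

end Pool.Agent.K6.H97.AE
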