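import Mathlib

set_option autoImplicit false

open Filter Topology ComplexConjugate
open scoped InnerProductSpace

namespace Pool.Agent.K6.H97.AE

/-- linear combination `∑ a_k v_k` -/
noncomputable def lc {A : Type} [AddCommMonoid A] [Module ℂ A] {n : ℕ} (a : Fin n → ℂ)
    (v : Fin n → A) : A := ∑ k, a k • v k

/-- complex conjugate of a vector of scalars -/
noncomputable def cj {n : ℕ} (a : Fin n → ℂ) : Fin n → ℂ := fun k => conj (a k)

/-- a fourth root of unity for each index -/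
noncomputable def ph {n : ℕ} (w : Fin n → Fin 4) : Fin n → ℂ := fun k => Complex.I ^ (w k : ℕ)

/-- commuting contractive tuples `M`, `v` (maps `ℓ₂ⁿ → B(K)`) -/
structure Dat {K : Type} [NormedAddCommGroup K] [InnerProductSpace ℂ K] [CompleteSpace K]
    {n : ℕ} (M v : Fin n → K →L[ℂ] K) : Prop where
  hM : ∀ a : Fin n → ℂ, ‖lc a M‖ ^ 2 ≤ ∑ k, ‖a k‖ ^ 2
  hv : ∀ a : Fin n → ℂ, ‖lc a v‖ ^ 2 ≤ ∑ k, ‖a k‖ ^ 2
  hc : ∀ k l, M k * v l = v l * M k
  hc' : ∀ k l, M k * star (v l) = star (v l) * M k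

/-- the operator `T = ∑ M_k v_k` -/
noncomputable def TT {K : Type} [NormedAddCommGroup K] [InnerProductSpace ℂ K] {n : ℕ}
    (M v : Fin n → K →L[ℂ] K) : K →L[ℂ] K := ∑ k, M k * v k

/-- the number `(n+1)/2` -/
noncomputable def gam (n : ℕ) : ℂ := ((n : ℂ) + 1) / 2

/-! ### Part 1: one pair of tuples -/

/-- DSG: fourth moments of random fourth roots of unity, in any algebra -/
def S_DSG : Prop := ∀ (n : ℕ) (A : Type) [Ring A] [Algebra ℂ A] (M v w : Fin n → A),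
  ∑ p : Fin n → Fin 4, lc (cj (ph p)) M * lc (ph p) v * lc (cj (ph p)) w * lc (ph p) v =
    ((4 : ℂ) ^ n) • ((∑ l, ∑ j, M l * v l * w j * v j) + (∑ l, ∑ i, M l * v i * w i * v l) -
      ∑ k, M k * v k * w k * v k)

/-- DS2: second moments -/
def S_DS2 : Prop := ∀ (n : ℕ) (A : Type) [Ring A] [Algebra ℂ A] (w v : Fin n → A),
  (∑ p : Fin n → Fin 4, lc (cj (ph p)) w * lc (ph p) v = ((4 : ℂ) ^ n) • ∑ k, w k * v k) ∧
  (∑ p : Fin n → Fin 4, lc (ph p) v * lc (cj (ph p)) w = ((4 : ℂ) ^ n) • ∑ k, v k * w k)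

/-- POS: the defect at one point -/
def S_POS : Prop := ∀ (K : Type) [NormedAddCommGroup K] [InnerProductSpace ℂ K]
    [CompleteSpace K] (M v : K →L[ℂ] K), ‖M‖ ≤ 1 → ‖v‖ ≤ 1 → M * v = v * M →
    M * star v = star v * M → ∀ ξ η : K,
  0 ≤ ‖v η‖ ^ 2 - ‖star v (v η)‖ ^ 2 ∧
  (‖v η‖ ^ 2 - ‖star v (v η)‖ ^ 2) / 2 + ‖star v ξ - M (star v (v η))‖ ^ 2 / 2 ≤
    (‖star v ξ‖ ^ 2 + ‖v η‖ ^ 2) / 2 - (⟪ξ, M (v (star v (v η)))⟫_ℂ).re

/-- DEF: the defect at a basis vector is controlled by the error of the near-optimal pair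
`(ξ, η)`. Proof: sum POS over the points `e_k` (weight one) and `p / √n`
(weight `n ^ 2 / 4 ^ n`), use DSG and DS2 with `w = star v`:
the sum is `((n+1)/2) (⟪η,Pη⟫ + ⟪ξ,Qξ⟫) - Re ⟪ξ,(TP+QT)η⟫`, `P = ∑ v_k^* v_k`, `Q = ∑ v_k v_k^*`. -/
def S_DEF : Prop := ∀ (K : Type) [NormedAddCommGroup K] [InnerProductSpace ℂ K]
    [CompleteSpace K] (n : ℕ), 1 ≤ n → ∀ (M v : Fin n → K →L[ℂ] K), Dat M v →
    ∀ ξ η : K, ‖ξ‖ ≤ 1 → ‖η‖ ≤ 1 → ∀ k : Fin n,
  (‖v k η‖ ^ 2 - ‖star (v k) (v k η)‖ ^ 2) / 2 +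
    ‖star (v k) ξ - M k (star (v k) (v k η))‖ ^ 2 / 2 ≤
    n * (‖TT M v η - gam n • ξ‖ + ‖star (TT M v) ξ - gam n • η‖)

/-- ROT: rotating the coordinates so that a given unit vector becomes a basis vector -/
def S_ROT : Prop := ∀ (K : Type) [NormedAddCommGroup K] [InnerProductSpace ℂ K]
    [CompleteSpace K] (n : ℕ) (M v : Fin n → K →L[ℂ] K), Dat M v →
    ∀ z : Fin n → ℂ, ∑ k, ‖z k‖ ^ 2 = 1 →
  ∃ (M' v' : Fin n → K →L[ℂ] K) (k : Fin n), Dat M' v' ∧ TT M' v' = TT M v ∧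
    v' k = lc z v ∧ M' k = lc (cj z) M

/-! ### Part 2: sequences -/

/-- a sequence of vectors tending to zero -/
def Small {K : ℕ → Type} [∀ t, NormedAddCommGroup (K t)] (x : ∀ t, K t) : Prop :=
  Tendsto (fun t => ‖x t‖) atTop (𝓝 0)

/-- a sequence of data with near-optimal vectors for the constant `(n+1)/2` -/
structure SD (n : ℕ) (K : ℕ → Type) [∀ t, NormedAddCommGroup (K t)]
    [∀ t, InnerProductSpace ℂ (K t)] [∀ t, CompleteSpace (K t)]
    (M v : ∀ t, Fin n → (K t →L[ℂ] K t)) (ξ η : ∀ t, K t) : Prop where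
  dat : ∀ t, Dat (M t) (v t)
  hξ : ∀ t, ‖ξ t‖ ≤ 1
  hη : ∀ t, ‖η t‖ ≤ 1
  h1 : Small (fun t => TT (M t) (v t) (η t) - gam n • ξ t)
  h2 : Small (fun t => star (TT (M t) (v t)) (ξ t) - gam n • η t)

/-- SYM: the two symmetries of the situation -/
def S_SYM : Prop := ∀ (n : ℕ) (K : ℕ → Type) [∀ t, NormedAddCommGroup (K t)]
    [∀ t, InnerProductSpace ℂ (K t)] [∀ t, CompleteSpace (K t)]
    (M v : ∀ t, Fin n → (K t →L[ℂ] K t)) (ξ η : ∀ t, K t), SD n K M v ξ η →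
  SD n K v M ξ η ∧ SD n K (fun t k => star (M t k)) (fun t k => star (v t k)) η ξ

/-- KL: consequences of DEF (at all unit vectors, by ROT).
Proof: with `V = v(z)`, `N = M(conj z)`: `‖V V^* V η - V η‖² ≤ ‖Vη‖² - ‖V^* V η‖²`, and apply `V` to
`V^* ξ - N V^* V η`. -/
def S_KL : Prop := ∀ (n : ℕ), 1 ≤ n → ∀ (K : ℕ → Type) [∀ t, NormedAddCommGroup (K t)]
    [∀ t, InnerProductSpace ℂ (K t)] [∀ t, CompleteSpace (K t)]
    (M v : ∀ t, Fin n → (K t →L[ℂ] K t)) (ξ η : ∀ t, K t), SD n K M v ξ η →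
    ∀ z : Fin n → ℂ, ∑ k, ‖z k‖ ^ 2 = 1 →
  Small (fun t => lc z (v t) (star (lc z (v t)) (lc z (v t) (η t))) - lc z (v t) (η t)) ∧
  Small (fun t => lc (cj z) (M t) (lc z (v t) (η t)) - lc z (v t) (star (lc z (v t)) (ξ t)))

/-- C3: `v_i^* v_j η ≈ M_j^* M_i η`.
Proof: KL (second part) for the adjoint data and for its swap gives, after replacing `z` by its
conjugate, `M(conj z)^* v(z)^* ξ ≈ v(z)^* v(z) η` and `v(z)^* M(conj z)^* ξ ≈ M(conj z)^* M(conj z) η`;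
the left sides agree; then polarise over `z = (e_i + ω e_j)/√2`, `ω ∈ {1, i, -1, -i}`. -/
def S_C3 : Prop := ∀ (n : ℕ), 1 ≤ n → ∀ (K : ℕ → Type) [∀ t, NormedAddCommGroup (K t)]
    [∀ t, InnerProductSpace ℂ (K t)] [∀ t, CompleteSpace (K t)]
    (M v : ∀ t, Fin n → (K t →L[ℂ] K t)) (ξ η : ∀ t, K t), SD n K M v ξ η →
    ∀ i j : Fin n, Small (fun t => star (v t i) (v t j (η t)) - star (M t j) (M t i (η t)))

/-- the representation of the free algebra sending the generator `(i,j)` to `v_i^* v_j` -/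
noncomputable def rho {K : Type} [NormedAddCommGroup K] [InnerProductSpace ℂ K] [CompleteSpace K]
    {n : ℕ} (v : Fin n → K →L[ℂ] K) : FreeAlgebra ℂ (Fin n × Fin n) →ₐ[ℂ] (K →L[ℂ] K) :=
  FreeAlgebra.lift ℂ (fun p => star (v p.1) * v p.2)

/-- the ideal of the polynomials killing `η` in the limit -/
def InI {n : ℕ} {K : ℕ → Type} [∀ t, NormedAddCommGroup (K t)]
    [∀ t, InnerProductSpace ℂ (K t)] [∀ t, CompleteSpace (K t)]
    (v : ∀ t, Fin n → (K t →L[ℂ] K t)) (η : ∀ t, K t)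
    (p : FreeAlgebra ℂ (Fin n × Fin n)) : Prop :=
  Small (fun t => rho (v t) p (η t))

/-- generators -/
noncomputable def ff {n : ℕ} (i j : Fin n) : FreeAlgebra ℂ (Fin n × Fin n) :=
  FreeAlgebra.ι ℂ (i, j)

/-- IDL: it is a two-sided ideal. The right ideal property uses C3: modulo small terms a factor
`v_i^* v_j` next to `η` can be replaced by `M_j^* M_i`, which commutes with `rho p`. -/
def S_IDL : Prop := ∀ (n : ℕ), 1 ≤ n → ∀ (K : ℕ → Type) [∀ t, NormedAddCommGroup (K t)]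
    [∀ t, InnerProductSpace ℂ (K t)] [∀ t, CompleteSpace (K t)]
    (M v : ∀ t, Fin n → (K t →L[ℂ] K t)) (ξ η : ∀ t, K t), SD n K M v ξ η →
    (∀ i j : Fin n, Small (fun t => star (v t i) (v t j (η t)) - star (M t j) (M t i (η t)))) →
    (∀ p q, InI v η p → InI v η q → InI v η (p + q)) ∧
    (∀ p q, InI v η p → InI v η (q * p)) ∧ (∀ p q, InI v η p → InI v η (p * q))

/-- REL: the relations. Proof: `v(z) F(z) w ≈ v(z) w` for `w = rho p η`, all unit `z`, where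
`F(z) = v(z)^* v(z)` (KL gives `F(z)² - F(z)` in the ideal; it is two-sided; and
`‖V (1 - V^* V) w‖² = ⟪V^*V (1 - V^*V) w, (1 - V^*V) w⟫`); polarise: `v_k F_ll w + v_l F_lk w ≈ v_k w`
for `k ≠ l`; multiply by `v_k^*`. Third: if `L` is in the ideal and `rho L' = (rho L)^*` then `L'`
is in the ideal, as `‖rho L' η‖² = ⟪rho (L L') η, η⟫`. Last: `T^* T η ≈ gam² η` and
`T^* T = ∑ v_k^* v_l M_k^* M_l`. -/
def S_REL : Prop := ∀ (n : ℕ), 1 ≤ n → ∀ (K : ℕ → Type) [∀ t, NormedAddCommGroup (K t)]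
    [∀ t, InnerProductSpace ℂ (K t)] [∀ t, CompleteSpace (K t)]
    (M v : ∀ t, Fin n → (K t →L[ℂ] K t)) (ξ η : ∀ t, K t), SD n K M v ξ η →
    (∀ z : Fin n → ℂ, ∑ k, ‖z k‖ ^ 2 = 1 →
      Small (fun t => lc z (v t) (star (lc z (v t)) (lc z (v t) (η t))) - lc z (v t) (η t))) →
    (∀ i j : Fin n, Small (fun t => star (v t i) (v t j (η t)) - star (M t j) (M t i (η t)))) →
    (∀ p q, InI v η p → InI v η q → InI v η (p + q)) →
    (∀ p q, InI v η p → InI v η (q * p)) → (∀ p q, InI v η p → InI v η (p * q)) →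
    (∀ k : Fin n, InI v η (ff k k * ff k k - ff k k)) ∧
    (∀ k l : Fin n, k ≠ l → InI v η (ff k k * ff l l + ff k l * ff l k - ff k k)) ∧
    (∀ k l : Fin n, k ≠ l → InI v η (ff l l * ff k k + ff k l * ff l k - ff k k)) ∧
    InI v η ((∑ k, ∑ l, ff k l * ff l k) - algebraMap ℂ _ (gam n ^ 2))

/-- ALG: pure algebra. In a ring where nonzero integers are invertible, `n` commuting idempotents
`e_k` with `(2 ∑ e_k - (n+1))² = 0` and `n` even force `1 = 0`. (Multiply by the product of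
`e_k`, `k ∈ S`, and `1 - e_k`, `k ∉ S`; these products sum to one.) -/
def S_ALG : Prop := ∀ (A : Type) [Ring A], (∀ m : ℤ, m ≠ 0 → IsUnit (m : A)) → ∀ (n : ℕ), Even n →
    ∀ e : Fin n → A, (∀ k, e k * e k = e k) → (∀ k l, e k * e l = e l * e k) →
    (2 * (∑ k, e k) - ((n : A) + 1)) * (2 * (∑ k, e k) - ((n : A) + 1)) = 0 → (1 : A) = 0

/-- AL2: the same from the relations (with `g = ff` modulo the ideal): gives the hypothesis of ALG -/
def S_AL2 : Prop := ∀ (A : Type) [Ring A], (∀ m : ℤ, m ≠ 0 → IsUnit (m : A)) → ∀ (n : ℕ), Even n →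
    ∀ g : Fin n → Fin n → A, (∀ k, g k k * g k k = g k k) →
    (∀ k l, k ≠ l → g k k * g l l + g k l * g l k = g k k) →
    (∀ k l, k ≠ l → g l l * g k k + g k l * g l k = g k k) →
    4 * (∑ k, ∑ l, g k l * g l k) = ((n : A) + 1) * ((n : A) + 1) → (1 : A) = 0

/-- QUO: passage to the quotient by a two-sided ideal given as a predicate -/
def S_QUO : Prop := ∀ (R : Type) [Ring R] (I : R → Prop), I 0 → (∀ p q, I p → I q → I (p + q)) →
    (∀ p q, I p → I (q * p)) → (∀ p q, I p → I (p * q)) →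
    ∃ (A : Type) (_ : Ring A) (f : R →+* A), ∀ p, f p = 0 ↔ I p

end Pool.Agent.K6.H97.AE
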