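import Mathlib
import Pool.Agent.Helper547.Alpha.Defs
import Pool.Agent.K6.H97.AE.Stm

set_option autoImplicit false

open Filter Topology ComplexConjugate
open scoped InnerProductSpace

namespace Pool.Agent.K6.H97.AE

open Pool.Agent.Helper547.Alpha

/-- NRM: a near-optimal sequence. Import `Pool.Agent.Helper150.Al.AlphaLevel` for the proof; see
there the proof of `euclid_of_alpha` (data from `alpha`), `core_bound`, `core_boundF`
(`‖T‖ ≤ (n+1)/2`), `exists_near`; take `ξ_t = T η_t / gam`. -/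
def S_NRM : Prop := ∀ (n : ℕ), 1 ≤ n →
    ((n : ℝ) + 1) / 2 ≤ alpha (EuclideanSpace ℂ (Fin n)) →
  ∃ (K : ℕ → Type) (_ : ∀ t, NormedAddCommGroup (K t)) (_ : ∀ t, InnerProductSpace ℂ (K t))
    (_ : ∀ t, CompleteSpace (K t)) (M v : ∀ t, Fin n → (K t →L[ℂ] K t)) (ξ η : ∀ t, K t),
    SD n K M v ξ η ∧ ¬ Small η

/-- BM: behaviour of `alpha` under isomorphisms. For boundedness of the suprema see
`Pool.Agent.Helper547.Alpha.Upper` (`UB`, `alpha_le`) and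
`Pool.Agent.Helper150.Al.AlphaLevel` (`ub_all`). -/
def S_BM : Prop := ∀ (E F : Type) [NormedAddCommGroup E] [NormedSpace ℂ E]
    [NormedAddCommGroup F] [NormedSpace ℂ F] [FiniteDimensional ℂ E] [FiniteDimensional ℂ F]
    (e : F ≃ₗ[ℂ] E) (a b : ℝ), 0 ≤ a → 0 ≤ b → (∀ x, ‖e x‖ ≤ a * ‖x‖) →
    (∀ y, ‖e.symm y‖ ≤ b * ‖y‖) → alpha F ≤ a * b * alpha E

/-- CPT: compactness of the class of `n`-dimensional spaces. Use
`Pool.Agent.Helper150.Cb.PartJohn.john` (module `Pool.Agent.Helper150.Cb.John`): for every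
`n`-dimensional `X` there is `w : (Fin n → ℂ) ≃ₗ[ℂ] X` with `‖w z‖² ≤ ∑ ‖z l‖²` and, by the frame
identity, `∑ ‖z l‖² ≤ n ‖w z‖²`. So the norms `z ↦ ‖w_t z‖` are equi-Lipschitz; take a limit along an
ultrafilter (or a subsequence), uniform on the compact sphere. -/
def S_CPT : Prop := ∀ (n : ℕ), 1 ≤ n → ∀ (X : ℕ → Type) [∀ t, NormedAddCommGroup (X t)]
    [∀ t, NormedSpace ℂ (X t)] [∀ t, FiniteDimensional ℂ (X t)],
    (∀ t, Module.finrank ℂ (X t) = n) →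
  ∃ (E : Type) (_ : NormedAddCommGroup E) (_ : NormedSpace ℂ E), FiniteDimensional ℂ E ∧
    Module.finrank ℂ E = n ∧ ∀ δ : ℝ, 0 < δ → ∀ N : ℕ, ∃ t, N ≤ t ∧ ∃ e : X t ≃ₗ[ℂ] E,
      (∀ x, ‖e x‖ ≤ (1 + δ) * ‖x‖) ∧ (∀ y, ‖e.symm y‖ ≤ (1 + δ) * ‖y‖)

end Pool.Agent.K6.H97.AE
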