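import Mathlib
import Pool.Agent.K6.H97.AE.Stm2
import Pool.Agent.Helper150.Al.AlphaLevel

set_option autoImplicit false

open Filter Topology ComplexConjugate
open scoped InnerProductSpace Matrix.Norms.L2Operator

namespace Pool.Agent.K6.H97.AE

namespace BM

open Pool.Agent.Helper547.Alpha

theorem opNorm_smul_le {H : Type} [NormedAddCommGroup H] [InnerProductSpace ℂ H] {m : ℕ}
    (T : Matrix (Fin m) (Fin m) (H →L[ℂ] H)) {c : ℝ} (hc : 0 < c) :
    c * opNorm H m T ≤ opNorm H m (fun i j => (c : ℂ) • T i j) := by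
  have key : ∀ C : ℝ, C ∈ {C : ℝ | 0 ≤ C ∧ ∀ ξ : Fin m → H,
      ∑ i, ‖∑ j, ((c : ℂ) • T i j) (ξ j)‖ ^ 2 ≤ C ^ 2 * ∑ j, ‖ξ j‖ ^ 2} ↔
      C / c ∈ {C : ℝ | 0 ≤ C ∧ ∀ ξ : Fin m → H,
      ∑ i, ‖∑ j, T i j (ξ j)‖ ^ 2 ≤ C ^ 2 * ∑ j, ‖ξ j‖ ^ 2} := by
    intro C
    simp only [Set.mem_setOf_eq]
    refine and_congr (by rw [le_div_iff₀ hc, zero_mul]) (forall_congr' fun ξ => ?_)
    have e1 : ∀ i, ‖∑ j, ((c : ℂ) • T i j) (ξ j)‖ ^ 2 = c ^ 2 * ‖∑ j, T i j (ξ j)‖ ^ 2 := by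
      intro i
      have : ∑ j, ((c : ℂ) • T i j) (ξ j) = (c : ℂ) • ∑ j, T i j (ξ j) := by
        rw [Finset.smul_sum]
        rfl
      rw [this, norm_smul, mul_pow, Complex.norm_real, Real.norm_of_nonneg hc.le]
    rw [Finset.sum_congr rfl fun i _ => e1 i, ← Finset.mul_sum, div_pow, div_mul_eq_mul_div,
      le_div_iff₀ (by positivity), mul_comm (c ^ 2)]
  unfold opNorm
  by_cases hne : {C : ℝ | 0 ≤ C ∧ ∀ ξ : Fin m → H,
      ∑ i, ‖∑ j, ((c : ℂ) • T i j) (ξ j)‖ ^ 2 ≤ C ^ 2 * ∑ j, ‖ξ j‖ ^ 2}.Nonempty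
  · refine le_csInf hne fun C hC => ?_
    have h1 := (key C).1 hC
    have h2 := csInf_le (⟨0, fun _ hc => hc.1⟩ : BddBelow {C : ℝ | 0 ≤ C ∧ ∀ ξ : Fin m → H,
      ∑ i, ‖∑ j, T i j (ξ j)‖ ^ 2 ≤ C ^ 2 * ∑ j, ‖ξ j‖ ^ 2}) h1
    rw [le_div_iff₀ hc] at h2
    linarith
  · have h3 : {C : ℝ | 0 ≤ C ∧ ∀ ξ : Fin m → H,
      ∑ i, ‖∑ j, T i j (ξ j)‖ ^ 2 ≤ C ^ 2 * ∑ j, ‖ξ j‖ ^ 2} = ∅ := by
      rw [Set.eq_empty_iff_forall_notMem]
      intro C hC
      apply hne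
      refine ⟨C * c, (key _).2 ?_⟩
      rwa [mul_div_assoc, div_self hc.ne', mul_one]
    rw [Set.not_nonempty_iff_eq_empty.1 hne, h3, Real.sInf_empty, mul_zero]

end BM

open Pool.Agent.Helper547.Alpha Pool.Agent.Helper150.Al in
theorem t_BM : S_BM := by
  intro E F _ _ _ _ _ _ e a b ha hb hae hbe
  by_cases hab : 0 < a ∧ 0 < b
  · obtain ⟨ha0, hb0⟩ := hab
    apply alpha_le
    intro m x hx H _ _ _ u hu
    let e' : F →L[ℂ] E := LinearMap.toContinuousLinearMap (e : F →ₗ[ℂ] E)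
    let s' : E →L[ℂ] F := LinearMap.toContinuousLinearMap (e.symm : E →ₗ[ℂ] F)
    have he' : ‖e'‖ ≤ a := ContinuousLinearMap.opNorm_le_bound _ ha hae
    have hs' : ‖s'‖ ≤ b := ContinuousLinearMap.opNorm_le_bound _ hb hbe
    have hy : minNorm m (x.map fun z => ((a : ℂ)⁻¹) • e z) ≤ 1 := by
      refine minNorm_le fun f hf => ?_
      have h1 : ‖((a : ℂ)⁻¹) • (f.comp e')‖ ≤ 1 := by
        rw [norm_smul, norm_inv, Complex.norm_real, Real.norm_of_nonneg ha, inv_mul_le_iff₀ ha0,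
          mul_one]
        calc ‖f.comp e'‖ ≤ ‖f‖ * ‖e'‖ := f.opNorm_comp_le e'
          _ ≤ 1 * a := mul_le_mul hf he' (norm_nonneg _) zero_le_one
          _ = a := one_mul a
      have h2 := map_le_of_minNorm hx _ h1
      have h3 : (x.map fun z => ((a : ℂ)⁻¹) • e z).map f = x.map (((a : ℂ)⁻¹) • (f.comp e')) := by
        ext i j
        simp [e']
      rw [h3]
      exact h2
    have hu' : ‖((b : ℂ)⁻¹) • (u.comp s')‖ ≤ 1 := by
      rw [norm_smul, norm_inv, Complex.norm_real, Real.norm_of_nonneg hb, inv_mul_le_iff₀ hb0,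
        mul_one]
      calc ‖u.comp s'‖ ≤ ‖u‖ * ‖s'‖ := u.opNorm_comp_le s'
        _ ≤ 1 * b := mul_le_mul hu hs' (norm_nonneg _) zero_le_one
        _ = b := one_mul b
    have h1 := le_alpha (ub_all (E := E) rfl) _ hy H _ hu'
    have h2 : (x.map fun z => ((a : ℂ)⁻¹) • e z).map (((b : ℂ)⁻¹) • (u.comp s')) =
        fun i j => (((a * b)⁻¹ : ℝ) : ℂ) • (x.map u) i j := by
      ext i j : 2
      simp only [Matrix.map_apply, ContinuousLinearMap.coe_smul', Pi.smul_apply,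
        ContinuousLinearMap.coe_comp', Function.comp_apply, map_smul]
      have h3 : s' (e (x i j)) = x i j := e.symm_apply_apply _
      rw [h3, smul_smul]
      congr 1
      push_cast
      rw [mul_inv]
      ring
    rw [h2] at h1
    have h4 := (BM.opNorm_smul_le (x.map u) (c := (a * b)⁻¹) (by positivity)).trans h1
    rw [inv_mul_le_iff₀ (by positivity)] at h4
    exact h4
  · have hz : ∀ x : F, x = 0 := by
      intro x
      by_cases h : 0 < a
      · have hb0 : b = 0 := le_antisymm (not_lt.1 fun h' => hab ⟨h, h'⟩) hb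
        have h1 := hbe (e x)
        rw [hb0, zero_mul, e.symm_apply_apply] at h1
        exact norm_le_zero_iff.1 h1
      · have ha0 : a = 0 := le_antisymm (not_lt.1 h) ha
        have h1 := hae x
        rw [ha0, zero_mul] at h1
        exact e.map_eq_zero_iff.1 (norm_le_zero_iff.1 h1)
    have hab0 : a * b = 0 := by
      by_cases h : 0 < a
      · have hb0 : b = 0 := le_antisymm (not_lt.1 fun h' => hab ⟨h, h'⟩) hb
        rw [hb0, mul_zero]
      · have ha0 : a = 0 := le_antisymm (not_lt.1 h) ha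
        rw [ha0, zero_mul]
    rw [hab0, zero_mul]
    apply alpha_le
    intro m x hx H _ _ _ u hu
    refine opNorm_le le_rfl fun ξ => ?_
    have h1 : ∀ i j, u (x i j) = 0 := fun i j => by rw [hz (x i j), map_zero]
    simp [h1]

end Pool.Agent.K6.H97.AE
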