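import Pool.Agent.K6.H97.AE.Stm

/-!
Piece `C3` of the call `call97b` (MP_9667ca_an, statement of helper97, proof of helper95).
-/

set_option autoImplicit false

open Filter Topology ComplexConjugate
open scoped InnerProductSpace

namespace Pool.Agent.K6.H97.AE

namespace C3

section small

variable {K : ℕ → Type} [∀ t, NormedAddCommGroup (K t)]

theorem small_add {x y : ∀ t, K t} (hx : Small x) (hy : Small y) :
    Small (fun t => x t + y t) := by
  unfold Small at *
  have h := hx.add hy
  rw [add_zero] at h
  exact squeeze_zero (fun t => norm_nonneg _) (fun t => norm_add_le _ _) h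

theorem small_sub {x y : ∀ t, K t} (hx : Small x) (hy : Small y) :
    Small (fun t => x t - y t) := by
  unfold Small at *
  have h := hx.add hy
  rw [add_zero] at h
  exact squeeze_zero (fun t => norm_nonneg _) (fun t => norm_sub_le _ _) h

theorem small_smul [∀ t, InnerProductSpace ℂ (K t)] {x : ∀ t, K t} (c : ℂ) (hx : Small x) :
    Small (fun t => c • x t) := by
  unfold Small at *
  have h := hx.const_mul ‖c‖
  rw [mul_zero] at h
  refine h.congr fun t => ?_
  rw [norm_smul]

end small

section one

variable {K : Type} [NormedAddCommGroup K] [InnerProductSpace ℂ K] [CompleteSpace K] {n : ℕ}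

theorem cj_cj (z : Fin n → ℂ) : cj (cj z) = z := by
  funext k
  simp [cj]

theorem star_lc (z : Fin n → ℂ) (v : Fin n → K →L[ℂ] K) :
    lc (cj z) (fun k => star (v k)) = star (lc z v) := by
  unfold lc cj
  rw [star_sum]
  refine Finset.sum_congr rfl fun k _ => ?_
  rw [star_smul]
  rfl

theorem lc_comm {M v : Fin n → K →L[ℂ] K} (h : Dat M v) (a b : Fin n → ℂ) :
    lc a M * lc b v = lc b v * lc a M := by
  unfold lc
  rw [Finset.sum_mul_sum, Finset.sum_mul_sum, Finset.sum_comm]
  refine Finset.sum_congr rfl fun k _ => Finset.sum_congr rfl fun l _ => ?_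
  rw [smul_mul_smul_comm, smul_mul_smul_comm, h.hc, mul_comm]

theorem star_comm_apply {M v : Fin n → K →L[ℂ] K} (h : Dat M v) (a b : Fin n → ℂ) (x : K) :
    star (lc a M) (star (lc b v) x) = star (lc b v) (star (lc a M) x) := by
  have h1 : star (lc a M) * star (lc b v) = star (lc b v) * star (lc a M) := by
    rw [← star_mul, ← star_mul, lc_comm h]
  have h2 := congrArg (fun T : K →L[ℂ] K => T x) h1
  exact h2

theorem expand (a b : ℂ) (V1 V2 N1 N2 : K →L[ℂ] K) (η : K) :
    star (a • V1 + b • V2) ((a • V1 + b • V2) η) -
      star (conj a • N1 + conj b • N2) ((conj a • N1 + conj b • N2) η) =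
    (conj a * a) • (star V1 (V1 η) - star N1 (N1 η)) +
      (conj b * b) • (star V2 (V2 η) - star N2 (N2 η)) +
      ((conj a * b) • (star V1 (V2 η) - star N2 (N1 η)) +
      (conj b * a) • (star V2 (V1 η) - star N1 (N2 η))) := by
  simp only [star_add, star_smul, ContinuousLinearMap.add_apply, ContinuousLinearMap.smul_apply,
    map_add, map_smul, smul_add, Complex.star_def, Complex.conj_conj]
  module

/-- the vector `a e_i + b e_j` -/
noncomputable def tw (i j : Fin n) (a b : ℂ) : Fin n → ℂ :=
  fun k => if k = i then a else if k = j then b else 0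

theorem lc_tw {i j : Fin n} (hij : i ≠ j) (a b : ℂ) (v : Fin n → K →L[ℂ] K) :
    lc (tw i j a b) v = a • v i + b • v j := by
  unfold lc tw
  have h : ∀ k, (if k = i then a else if k = j then b else 0) • v k =
      (if k = i then a • v i else 0) + (if k = j then b • v j else 0) := by
    intro k
    by_cases h1 : k = i
    · subst h1
      simp [hij]
    · by_cases h2 : k = j
      · subst h2
        simp [h1]
      · simp [h1, h2]
  rw [Finset.sum_congr rfl fun k _ => h k, Finset.sum_add_distrib]
  simp

theorem cj_tw (i j : Fin n) (a b : ℂ) : cj (tw i j a b) = tw i j (conj a) (conj b) := by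
  funext k
  unfold cj tw
  split_ifs <;> simp

theorem norm_tw {i j : Fin n} (hij : i ≠ j) (a b : ℂ) :
    ∑ k, ‖tw i j a b k‖ ^ 2 = ‖a‖ ^ 2 + ‖b‖ ^ 2 := by
  unfold tw
  have h : ∀ k, ‖(if k = i then a else if k = j then b else 0)‖ ^ 2 =
      (if k = i then ‖a‖ ^ 2 else 0) + (if k = j then ‖b‖ ^ 2 else 0) := by
    intro k
    by_cases h1 : k = i
    · subst h1
      simp [hij]
    · by_cases h2 : k = j
      · subst h2
        simp [h1]
      · simp [h1, h2]
  rw [Finset.sum_congr rfl fun k _ => h k, Finset.sum_add_distrib]
  simp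

end one

end C3

open C3 in
theorem t_C3 (hKL : S_KL) (hSYM : S_SYM) : S_C3 := by
  intro n hn K _ _ _ M v ξ η h
  -- the quadratic form version
  have key : ∀ z : Fin n → ℂ, ∑ k, ‖z k‖ ^ 2 = 1 →
      Small (fun t => star (lc z (v t)) (lc z (v t) (η t)) -
        star (lc (cj z) (M t)) (lc (cj z) (M t) (η t))) := by
    intro z hz
    have hz' : ∑ k, ‖cj z k‖ ^ 2 = 1 := by
      rw [← hz]
      refine Finset.sum_congr rfl fun k _ => ?_
      simp [cj]
    have hadj := (hSYM n K M v ξ η h).2
    have hsw := (hSYM n K M v ξ η h).1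
    have hswadj := (hSYM n K v M ξ η hsw).2
    have k1 := (hKL n hn K _ _ η ξ hadj (cj z) hz').2
    have k2 := (hKL n hn K _ _ η ξ hswadj z hz).2
    have e1 : ∀ t, lc z (fun k => star (M t k)) = star (lc (cj z) (M t)) := by
      intro t
      have := star_lc (cj z) (M t)
      rwa [cj_cj] at this
    have h3 := small_sub k2 k1
    refine (congrArg Small ?_).mp h3
    funext t
    simp only [cj_cj, star_lc, star_star, e1]
    rw [star_comm_apply (h.dat t) (cj z) z (ξ t)]
    abel
  have hdiag : ∀ i : Fin n, Small (fun t => star (v t i) (v t i (η t)) -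
      star (M t i) (M t i (η t))) := by
    intro i
    have h1 := key (Pi.single i 1) (by
      rw [Finset.sum_eq_single i]
      · simp
      · intro k _ hk
        simp [hk]
      · simp)
    have e1 : ∀ t, lc (Pi.single i (1 : ℂ)) (v t) = v t i := by
      intro t
      unfold lc
      rw [Finset.sum_eq_single i]
      · simp
      · intro k _ hk
        simp [hk]
      · simp
    have e2 : ∀ t, lc (cj (Pi.single i (1 : ℂ))) (M t) = M t i := by
      intro t
      unfold lc cj
      rw [Finset.sum_eq_single i]
      · simp
      · intro k _ hk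
        simp [hk]
      · simp
    simpa only [e1, e2] using h1
  intro i j
  by_cases hij : i = j
  · subst hij
    exact hdiag i
  · have hω : ∀ ω : ℂ, ‖ω‖ = 1 → Small (fun t =>
        (ω • (star (v t i) (v t j (η t)) - star (M t j) (M t i (η t))) +
          (conj ω) • (star (v t j) (v t i (η t)) - star (M t i) (M t j (η t))))) := by
      intro ω hω
      have h1 := key (tw i j (3 / 5) ((4 / 5) * ω)) (by
        rw [norm_tw hij, norm_mul, hω]
        norm_num)
      simp only [cj_tw, lc_tw hij] at h1
      have h2 : Small (fun t => (12 / 25 : ℂ) •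
          (ω • (star (v t i) (v t j (η t)) - star (M t j) (M t i (η t))) +
          (conj ω) • (star (v t j) (v t i (η t)) - star (M t i) (M t j (η t))))) := by
        have h3 := small_sub (small_sub h1 (small_smul (9 / 25 : ℂ) (hdiag i)))
          (small_smul (16 / 25 : ℂ) (hdiag j))
        refine (congrArg Small ?_).mp h3
        funext t
        rw [expand]
        have hωω : conj ω * ω = 1 := by
          rw [← Complex.normSq_eq_conj_mul_self, Complex.normSq_eq_norm_sq, hω]
          norm_num
        have c1 : (conj (3 / 5 : ℂ)) * (3 / 5) = 9 / 25 := by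
          simp only [map_div₀, Complex.conj_ofNat]
          norm_num
        have c2 : conj ((4 / 5 : ℂ) * ω) * ((4 / 5) * ω) = 16 / 25 := by
          simp only [map_mul, map_div₀, Complex.conj_ofNat]
          linear_combination (16 / 25 : ℂ) * hωω
        have c3 : (conj (3 / 5 : ℂ)) * ((4 / 5) * ω) = 12 / 25 * ω := by
          simp only [map_div₀, Complex.conj_ofNat]
          ring
        have c4 : conj ((4 / 5 : ℂ) * ω) * (3 / 5) = 12 / 25 * conj ω := by
          simp only [map_mul, map_div₀, Complex.conj_ofNat]
          ring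
        rw [c1, c2, c3, c4]
        module
      have h4 := small_smul (25 / 12 : ℂ) h2
      refine (congrArg Small ?_).mp h4
      funext t
      rw [smul_smul]
      norm_num
    have a1 := hω 1 (by simp)
    have a2 := small_smul (-Complex.I) (hω Complex.I (by simp))
    have a3 := small_smul (1 / 2 : ℂ) (small_add a1 a2)
    refine (congrArg Small ?_).mp a3
    funext t
    simp only [map_one, Complex.conj_I]
    have hI : Complex.I * Complex.I = -1 := Complex.I_mul_I
    simp only [smul_add, smul_smul]
    have c1 : (1 / 2 : ℂ) * (-Complex.I * Complex.I) = 1 / 2 := by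
      linear_combination (-(1 / 2 : ℂ)) * hI
    have c2 : (1 / 2 : ℂ) * (-Complex.I * -Complex.I) = -(1 / 2) := by
      linear_combination (1 / 2 : ℂ) * hI
    rw [c1, c2]
    module

end Pool.Agent.K6.H97.AE
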