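import Pool.Agent.K6.H97.AE.Stm2
import Pool.Agent.Helper150.Cb.John

/-!
# Compactness of the class of `n`-dimensional spaces (piece CPT of helper97, written by helper28)
-/

set_option autoImplicit false

open Filter Topology

namespace Pool.Agent.K6.H97.AE

namespace CPT

open Pool.Agent.Helper150.Cb

/-- A copy of a vector space, without its norm. -/
def Syn (V : Type) : Type := V

instance (V : Type) [AddCommGroup V] : AddCommGroup (Syn V) := inferInstanceAs (AddCommGroup V)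

instance (V : Type) [AddCommGroup V] [Module ℂ V] : Module ℂ (Syn V) :=
  inferInstanceAs (Module ℂ V)

theorem mk_space (V : Type) [AddCommGroup V] [Module ℂ V] (p : V → ℝ) (h0 : ∀ z, 0 ≤ p z)
    (hs : ∀ (c : ℂ) z, p (c • z) = ‖c‖ * p z) (ht : ∀ z w, p (z + w) ≤ p z + p w)
    (hz : ∀ z, p z = 0 ↔ z = 0) :
    ∃ (E : Type) (_ : NormedAddCommGroup E) (_ : NormedSpace ℂ E) (u : V ≃ₗ[ℂ] E),
      ∀ z, ‖u z‖ = p z := by
  let : Norm (Syn V) := ⟨p⟩
  have core : NormedSpace.Core ℂ (Syn V) :=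
    { norm_nonneg := h0, norm_smul := hs, norm_triangle := ht, norm_eq_zero_iff := hz }
  let := NormedAddCommGroup.ofCore core
  let := NormedSpace.ofCore core
  exact ⟨Syn V, inferInstance, inferInstance, LinearEquiv.refl ℂ V, fun z => rfl⟩

theorem bounds {n : ℕ} (hn : 0 < n) {X : Type} [NormedAddCommGroup X] [NormedSpace ℂ X]
    [FiniteDimensional ℂ X] (hdim : Module.finrank ℂ X = n) :
    ∃ w : (Fin n → ℂ) ≃ₗ[ℂ] X, ∀ z, ‖w z‖ ^ 2 ≤ ∑ l, ‖z l‖ ^ 2 ∧
      ∑ l, ‖z l‖ ^ 2 ≤ n * ‖w z‖ ^ 2 := by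
  obtain ⟨w, N, lam, h, h1, h2, h3, h4, h5⟩ := PartJohn.john hn hdim
  refine ⟨w, fun z => ⟨h1 z, ?_⟩⟩
  have hn0 : (n : ℂ) ≠ 0 := by exact_mod_cast hn.ne'
  have hlam : ∑ k, (lam k : ℂ) = 1 := by
    have e1 : ∑ i : Fin n, (n : ℂ) * ∑ k, (lam k : ℂ) * (h k i * star (h k i)) = n := by
      rw [Finset.sum_congr rfl fun i _ => h5 i i]
      simp
    rw [← Finset.mul_sum, Finset.sum_comm] at e1
    have e2 : ∀ k, ∑ i, (lam k : ℂ) * (h k i * star (h k i)) = lam k := by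
      intro k
      rw [← Finset.mul_sum]
      have e3 : ∑ i, h k i * star (h k i) = 1 := by
        rw [← h3 k]
        exact Finset.sum_congr rfl fun i _ => mul_comm _ _
      rw [e3, mul_one]
    rw [Finset.sum_congr rfl fun k _ => e2 k] at e1
    exact mul_left_cancel₀ hn0 (e1.trans (mul_one _).symm)
  have hlam' : ∑ k, lam k = 1 := by exact_mod_cast hlam
  have key : ∑ i, z i * star (z i) =
      (n : ℂ) * ∑ k, (lam k : ℂ) * (dotc (h k) z * star (dotc (h k) z)) := by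
    have e1 : ∑ i, z i * star (z i) = ∑ i, ∑ j, (z j * star (z i)) *
        ((n : ℂ) * ∑ k, (lam k : ℂ) * (h k i * star (h k j))) := by
      refine Finset.sum_congr rfl fun i _ => ?_
      rw [Finset.sum_congr rfl fun j _ => congrArg _ (h5 i j)]
      simp
    rw [e1]
    have e2 : ∀ k, (lam k : ℂ) * (dotc (h k) z * star (dotc (h k) z)) =
        ∑ i, ∑ j, (lam k : ℂ) * ((star (h k j) * z j) * (h k i * star (z i))) := by
      intro k
      have e3 : star (dotc (h k) z) = ∑ i, h k i * star (z i) := by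
        rw [dotc, star_sum]
        refine Finset.sum_congr rfl fun i _ => ?_
        rw [star_mul, star_star, mul_comm]
      rw [e3, dotc, Finset.sum_mul_sum, Finset.sum_comm, Finset.mul_sum]
      refine Finset.sum_congr rfl fun i _ => ?_
      rw [Finset.mul_sum]
    rw [Finset.sum_congr rfl fun k _ => e2 k]
    conv_rhs => rw [Finset.sum_comm, Finset.mul_sum]
    refine Finset.sum_congr rfl fun i _ => ?_
    conv_rhs => rw [Finset.sum_comm, Finset.mul_sum]
    refine Finset.sum_congr rfl fun j _ => ?_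
    rw [Finset.mul_sum, Finset.mul_sum, Finset.mul_sum]
    refine Finset.sum_congr rfl fun k _ => ?_
    ring
  have key' : ∑ i, ‖z i‖ ^ 2 = n * ∑ k, lam k * ‖dotc (h k) z‖ ^ 2 := by
    have e4 : ∀ c : ℂ, c * star c = ((‖c‖ ^ 2 : ℝ) : ℂ) := by
      intro c
      have := Complex.mul_conj c
      rw [Complex.normSq_eq_norm_sq] at this
      exact this
    have e5 : ((∑ i, ‖z i‖ ^ 2 : ℝ) : ℂ) = ((n * ∑ k, lam k * ‖dotc (h k) z‖ ^ 2 : ℝ) : ℂ) := by
      rw [Complex.ofReal_sum, Complex.ofReal_mul, Complex.ofReal_sum]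
      rw [Finset.sum_congr rfl fun i _ => (e4 (z i)).symm, key]
      refine congrArg₂ _ (by simp) (Finset.sum_congr rfl fun k _ => ?_)
      rw [e4, Complex.ofReal_mul]
    exact_mod_cast e5
  rw [key']
  refine mul_le_mul_of_nonneg_left ?_ (Nat.cast_nonneg _)
  calc ∑ k, lam k * ‖dotc (h k) z‖ ^ 2 ≤ ∑ k, lam k * ‖w z‖ ^ 2 :=
        Finset.sum_le_sum fun k _ => mul_le_mul_of_nonneg_left
          (pow_le_pow_left₀ (norm_nonneg _) (h4 k z) 2) (h2 k)
    _ = ‖w z‖ ^ 2 := by rw [← Finset.sum_mul, hlam', one_mul]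

theorem limit (V : Type) [NormedAddCommGroup V] [NormedSpace ℂ V] [ProperSpace V]
    (X : ℕ → Type) [∀ t, NormedAddCommGroup (X t)] [∀ t, NormedSpace ℂ (X t)]
    (W : ∀ t, V ≃ₗ[ℂ] X t) (C : ℝ) (hC : 0 < C) (h1 : ∀ t v, ‖W t v‖ ≤ ‖v‖)
    (h2 : ∀ t v, ‖v‖ ≤ C * ‖W t v‖) :
    ∃ (E : Type) (_ : NormedAddCommGroup E) (_ : NormedSpace ℂ E) (_ : V ≃ₗ[ℂ] E),
      ∀ δ : ℝ, 0 < δ → ∀ N : ℕ, ∃ t, N ≤ t ∧ ∃ e : X t ≃ₗ[ℂ] E,
        (∀ x, ‖e x‖ ≤ (1 + δ) * ‖x‖) ∧ (∀ y, ‖e.symm y‖ ≤ (1 + δ) * ‖y‖) := by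
  have hlim : ∀ v : V, ∃ a : ℝ, Tendsto (fun t => ‖W t v‖) (hyperfilter ℕ : Filter ℕ) (𝓝 a) := by
    intro v
    obtain ⟨a, -, ha⟩ := (isCompact_Icc (a := (0 : ℝ)) (b := ‖v‖)).ultrafilter_le_nhds
      ((hyperfilter ℕ).map fun t => ‖W t v‖) (by
        rw [Ultrafilter.coe_map, le_principal_iff, mem_map]
        exact Filter.Eventually.of_forall fun t => ⟨norm_nonneg _, h1 t v⟩)
    exact ⟨a, ha⟩
  choose q hq using hlim
  have q0 : ∀ v, 0 ≤ q v := fun v => ge_of_tendsto' (hq v) fun t => norm_nonneg _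
  have q1 : ∀ v, q v ≤ ‖v‖ := fun v => le_of_tendsto' (hq v) fun t => h1 t v
  have q2 : ∀ v, ‖v‖ ≤ C * q v := fun v =>
    ge_of_tendsto' ((hq v).const_mul C) fun t => h2 t v
  have qs : ∀ (c : ℂ) v, q (c • v) = ‖c‖ * q v := by
    intro c v
    refine tendsto_nhds_unique (hq (c • v)) (((hq v).const_mul ‖c‖).congr fun t => ?_)
    rw [map_smul, norm_smul]
  have qt : ∀ v w, q (v + w) ≤ q v + q w := by
    intro v w
    refine le_of_tendsto_of_tendsto' (hq (v + w)) ((hq v).add (hq w)) fun t => ?_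
    rw [map_add]
    exact norm_add_le _ _
  have qz : ∀ v, q v = 0 ↔ v = 0 := by
    intro v
    constructor
    · intro h
      have := q2 v
      rw [h, mul_zero] at this
      exact norm_le_zero_iff.1 this
    · rintro rfl
      have := q1 0
      rw [norm_zero] at this
      exact le_antisymm this (q0 0)
  obtain ⟨E, i1, i2, u, hu⟩ := mk_space V q q0 qs qt qz
  refine ⟨E, i1, i2, u, fun δ hδ N => ?_⟩
  -- differences
  have ql : ∀ v w, |q v - q w| ≤ ‖v - w‖ := by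
    intro v w
    have e1 := qt (v - w) w
    have e2 := qt (w - v) v
    rw [sub_add_cancel] at e1 e2
    have e3 := q1 (v - w)
    have e4 := q1 (w - v)
    rw [norm_sub_rev] at e4
    exact abs_le.2 ⟨by linarith, by linarith⟩
  have qlt : ∀ t v w, |‖W t v‖ - ‖W t w‖| ≤ ‖v - w‖ := by
    intro t v w
    refine (abs_norm_sub_norm_le _ _).trans ?_
    rw [← map_sub]
    exact h1 t _
  set ε : ℝ := δ / (3 * C) with hε
  have hε0 : 0 < ε := by positivity
  -- uniform approximation on the unit ball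
  have hK : IsCompact (Metric.closedBall (0 : V) 1) := isCompact_closedBall _ _
  obtain ⟨s, hs, hcov⟩ := Metric.totallyBounded_iff.1 hK.totallyBounded ε hε0
  have hev : ∀ᶠ t in (hyperfilter ℕ : Filter ℕ), ∀ y ∈ s, |‖W t y‖ - q y| < ε := by
    rw [Filter.eventually_all_finite hs]
    intro y _
    have := (Metric.tendsto_nhds.1 (hq y)) ε hε0
    exact this.mono fun t ht => by rwa [Real.dist_eq] at ht
  have hN : ∀ᶠ t in (hyperfilter ℕ : Filter ℕ), N ≤ t :=
    Nat.hyperfilter_le_atTop (eventually_ge_atTop N)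
  obtain ⟨t, ht, htN⟩ := (hev.and hN).exists
  have hball : ∀ v : V, ‖v‖ ≤ 1 → |‖W t v‖ - q v| ≤ 3 * ε := by
    intro v hv
    have hv' : v ∈ Metric.closedBall (0 : V) 1 := by rwa [mem_closedBall_zero_iff]
    obtain ⟨y, hy, hyv⟩ := Set.mem_iUnion₂.1 (hcov hv')
    rw [Metric.mem_ball, dist_eq_norm] at hyv
    have e1 := qlt t v y
    have e2 := ht y hy
    have e3 := ql y v
    rw [norm_sub_rev] at e3
    have e4 : ‖W t v‖ - q v = (‖W t v‖ - ‖W t y‖) + (‖W t y‖ - q y) + (q y - q v) := by ring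
    rw [e4]
    have e5 := abs_add_three (‖W t v‖ - ‖W t y‖) (‖W t y‖ - q y) (q y - q v)
    linarith
  have hall : ∀ v : V, |‖W t v‖ - q v| ≤ 3 * ε * ‖v‖ := by
    intro v
    rcases eq_or_ne v 0 with rfl | hv
    · rw [(qz 0).2 rfl]
      simp
    · have hv0 : 0 < ‖v‖ := norm_pos_iff.2 hv
      have e1 := hball (((‖v‖⁻¹ : ℝ) : ℂ) • v) (by
        rw [norm_smul, Complex.norm_real, norm_inv, norm_norm, inv_mul_cancel₀ hv0.ne'])
      rw [map_smul, norm_smul, qs, Complex.norm_real, norm_inv, norm_norm, ← mul_sub, abs_mul,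
        abs_of_pos (inv_pos.2 hv0), inv_mul_le_iff₀ hv0] at e1
      linarith
  have hCε : 3 * ε * C = δ := by
    rw [hε]
    field_simp
  refine ⟨t, htN, (W t).symm.trans u, fun x => ?_, fun y => ?_⟩
  · obtain ⟨v, rfl⟩ := (W t).surjective x
    rw [LinearEquiv.trans_apply, LinearEquiv.symm_apply_apply, hu]
    have e1 := (abs_le.1 (hall v)).1
    have e2 : 3 * ε * ‖v‖ ≤ 3 * ε * (C * ‖W t v‖) :=
      mul_le_mul_of_nonneg_left (h2 t v) (by positivity)
    have e3 : 3 * ε * (C * ‖W t v‖) = δ * ‖W t v‖ := by rw [← mul_assoc, hCε]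
    linarith
  · obtain ⟨v, rfl⟩ := u.surjective y
    rw [LinearEquiv.trans_symm, LinearEquiv.symm_symm, LinearEquiv.trans_apply,
      LinearEquiv.symm_apply_apply, hu]
    have e1 := (abs_le.1 (hall v)).2
    have e2 : 3 * ε * ‖v‖ ≤ 3 * ε * (C * q v) :=
      mul_le_mul_of_nonneg_left (q2 v) (by positivity)
    have e3 : 3 * ε * (C * q v) = δ * q v := by rw [← mul_assoc, hCε]
    linarith

end CPT

theorem t_CPT : S_CPT := by
  intro n hn X _ _ _ hX
  have hb := fun t => CPT.bounds (X := X t) (by omega) (hX t)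
  choose w hw using hb
  let W : ∀ t, EuclideanSpace ℂ (Fin n) ≃ₗ[ℂ] X t := fun t =>
    (WithLp.linearEquiv 2 ℂ (Fin n → ℂ)).trans (w t)
  have hW : ∀ t v, ‖W t v‖ ^ 2 ≤ ‖v‖ ^ 2 ∧ ‖v‖ ^ 2 ≤ n * ‖W t v‖ ^ 2 := by
    intro t v
    have h := hw t (WithLp.ofLp v)
    rw [EuclideanSpace.norm_sq_eq]
    exact h
  obtain ⟨E, i1, i2, u, hE⟩ := CPT.limit (EuclideanSpace ℂ (Fin n)) X W (Real.sqrt n)
    (Real.sqrt_pos.2 (by exact_mod_cast hn)) (fun t v =>
      (le_abs_self _).trans (abs_le_of_sq_le_sq (hW t v).1 (norm_nonneg _))) (fun t v => by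
      have h := (hW t v).2
      have e : (n : ℝ) * ‖W t v‖ ^ 2 = (Real.sqrt n * ‖W t v‖) ^ 2 := by
        rw [mul_pow, Real.sq_sqrt (Nat.cast_nonneg _)]
      rw [e] at h
      exact (le_abs_self _).trans (abs_le_of_sq_le_sq h (by positivity)))
  refine ⟨E, i1, i2, Module.Finite.equiv u, ?_, hE⟩
  rw [← u.finrank_eq]
  simp

end Pool.Agent.K6.H97.AE
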