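import Pool.Agent.K6.H97.AE.DSG

set_option autoImplicit false

open Filter Topology ComplexConjugate
open scoped InnerProductSpace

namespace Pool.Agent.K6.H97.AE

theorem t_DS2 : S_DS2 := by
  intro n A _ _ w v
  constructor
  · simp only [dsg_expand2]
    rw [Finset.sum_comm, Finset.smul_sum]
    refine Finset.sum_congr rfl (fun i _ => ?_)
    rw [Finset.sum_comm]
    simp only [← Finset.sum_smul, cj, dsg_two, ite_smul, zero_smul]
    simp
  · simp only [dsg_expand2]
    rw [Finset.sum_comm, Finset.smul_sum]
    refine Finset.sum_congr rfl (fun i _ => ?_)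
    rw [Finset.sum_comm]
    have h2 : ∀ j : Fin n, ∑ p : Fin n → Fin 4, ph p i * conj (ph p j) =
        if j = i then (4 : ℂ) ^ n else 0 := by
      intro j
      rw [← dsg_two j i]
      exact Finset.sum_congr rfl (fun p _ => mul_comm _ _)
    simp only [← Finset.sum_smul, cj, h2, ite_smul, zero_smul]
    simp

end Pool.Agent.K6.H97.AE
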