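import Pool.Agent.K6.H97.AE.Stm

set_option autoImplicit false

open Filter Topology ComplexConjugate
open scoped InnerProductSpace

namespace Pool.Agent.K6.H97.AE

theorem dsg_shift {n : ℕ} (p : Fin n → Fin 4) (t k : Fin n) :
    ph (p + Pi.single t 1) k = (if k = t then Complex.I else 1) * ph p k := by
  unfold ph
  by_cases h : k = t
  · subst h
    simp only [Pi.add_apply, Pi.single_eq_same, if_true]
    generalize p k = x
    fin_cases x <;> simp [pow_succ]
  · simp [h]

theorem dsg_unit {n : ℕ} (p : Fin n → Fin 4) (k : Fin n) :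
    conj (ph p k) * ph p k = 1 := by
  unfold ph
  rw [map_pow, ← mul_pow, Complex.conj_I]
  simp

theorem dsg_zero {n : ℕ} (F : (Fin n → Fin 4) → ℂ) (u : ℂ) (hu : u ≠ 1) (t : Fin n)
    (h : ∀ p, F (p + Pi.single t 1) = u * F p) : ∑ p, F p = 0 := by
  have h1 : ∑ p : Fin n → Fin 4, F (p + Pi.single t 1) = ∑ p, F p :=
    Equiv.sum_comp (Equiv.addRight (Pi.single t 1 : Fin n → Fin 4)) F
  have h2 : ∑ p : Fin n → Fin 4, F (p + Pi.single t 1) = u * ∑ p, F p := by
    rw [Finset.mul_sum]
    exact Finset.sum_congr rfl (fun p _ => h p)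
  have h3 : (u - 1) * ∑ p, F p = 0 := by
    rw [sub_mul, ← h2, h1]; ring
  rcases mul_eq_zero.mp h3 with h4 | h4
  · exact absurd (sub_eq_zero.mp h4) hu
  · exact h4

theorem dsg_card (n : ℕ) : ∑ _p : Fin n → Fin 4, (1 : ℂ) = (4 : ℂ) ^ n := by
  simp

theorem dsg_I1 : (Complex.I : ℂ) ≠ 1 := by
  intro h
  have := congrArg Complex.re h
  simp at this

theorem dsg_I2 : (-Complex.I : ℂ) ≠ 1 := by
  intro h
  have := congrArg Complex.re h
  simp at this

theorem dsg_I3 : (-1 : ℂ) ≠ 1 := by
  intro h
  have := congrArg Complex.re h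
  norm_num at this

theorem dsg_two {n : ℕ} (i j : Fin n) :
    ∑ p : Fin n → Fin 4, conj (ph p i) * ph p j = if i = j then (4 : ℂ) ^ n else 0 := by
  by_cases h : i = j
  · subst h
    rw [if_pos rfl, ← dsg_card n]
    exact Finset.sum_congr rfl (fun p _ => dsg_unit p i)
  · rw [if_neg h]
    refine dsg_zero _ Complex.I dsg_I1 j (fun p => ?_)
    rw [dsg_shift, dsg_shift, if_neg h, if_pos rfl]
    ring_nf

theorem dsg_four {n : ℕ} (i j k l : Fin n) :
    ∑ p : Fin n → Fin 4, conj (ph p i) * ph p j * conj (ph p k) * ph p l =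
      (4 : ℂ) ^ n * ((if i = j then (if k = l then 1 else 0) else 0) +
        (if i = l then (if j = k then 1 else 0) else 0) -
        (if i = j then (if j = k then (if k = l then 1 else 0) else 0) else 0)) := by
  by_cases hij : i = j
  · subst hij
    by_cases hkl : k = l
    · subst hkl
      have h1 : ∀ p : Fin n → Fin 4, conj (ph p i) * ph p i * conj (ph p k) * ph p k = 1 := by
        intro p
        rw [dsg_unit, one_mul, dsg_unit]
      rw [Finset.sum_congr rfl (fun p _ => h1 p), dsg_card]
      by_cases hik : i = k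
      · simp [hik]
      · simp [hik]
    · have h0 : ∑ p : Fin n → Fin 4, conj (ph p i) * ph p i * conj (ph p k) * ph p l = 0 := by
        have h1 : ∀ p : Fin n → Fin 4, conj (ph p i) * ph p i * conj (ph p k) * ph p l =
            conj (ph p k) * ph p l := by
          intro p
          rw [dsg_unit, one_mul]
        rw [Finset.sum_congr rfl (fun p _ => h1 p), dsg_two, if_neg hkl]
      rw [h0]
      by_cases hik : i = k
      · subst hik
        simp [hkl]
      · simp [hkl, hik]
  · by_cases hil : i = l
    · subst hil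
      by_cases hjk : j = k
      · subst hjk
        have h1 : ∀ p : Fin n → Fin 4, conj (ph p i) * ph p j * conj (ph p j) * ph p i = 1 := by
          intro p
          have e1 := dsg_unit p i
          have e2 := dsg_unit p j
          calc conj (ph p i) * ph p j * conj (ph p j) * ph p i =
              (conj (ph p i) * ph p i) * (conj (ph p j) * ph p j) := by ring
            _ = 1 := by rw [e1, e2, one_mul]
        rw [Finset.sum_congr rfl (fun p _ => h1 p), dsg_card]
        simp [hij]
      · have h0 : ∑ p : Fin n → Fin 4, conj (ph p i) * ph p j * conj (ph p k) * ph p i = 0 := by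
          refine dsg_zero _ Complex.I dsg_I1 j (fun p => ?_)
          rw [dsg_shift, dsg_shift, dsg_shift, if_neg hij, if_pos rfl, if_neg (Ne.symm hjk)]
          ring_nf
        rw [h0]
        simp [hij, hjk]
    · have h0 : ∑ p : Fin n → Fin 4, conj (ph p i) * ph p j * conj (ph p k) * ph p l = 0 := by
        by_cases hki : k = i
        · refine dsg_zero _ (-1) dsg_I3 i (fun p => ?_)
          rw [dsg_shift, dsg_shift, dsg_shift, dsg_shift, if_pos rfl, if_neg (Ne.symm hij),
            if_pos hki, if_neg (Ne.symm hil)]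
          simp only [map_mul, Complex.conj_I]
          have : (-Complex.I) * (-Complex.I) = -1 := by
            rw [neg_mul_neg, Complex.I_mul_I]
          linear_combination (conj (ph p i) * ph p j * conj (ph p k) * ph p l) * this
        · refine dsg_zero _ (-Complex.I) dsg_I2 i (fun p => ?_)
          rw [dsg_shift, dsg_shift, dsg_shift, dsg_shift, if_pos rfl, if_neg (Ne.symm hij),
            if_neg hki, if_neg (Ne.symm hil)]
          simp only [map_mul, Complex.conj_I, map_one]
          ring
      rw [h0]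
      simp [hij, hil]

theorem dsg_expand {n : ℕ} {A : Type} [Ring A] [Algebra ℂ A] (a b c d : Fin n → ℂ)
    (M v w x : Fin n → A) :
    lc a M * lc b v * lc c w * lc d x =
      ∑ i, ∑ j, ∑ k, ∑ l, (a i * b j * c k * d l) • (M i * v j * w k * x l) := by
  have e1 : lc a M * lc b v * lc c w * lc d x =
      lc a M * (lc b v * (lc c w * lc d x)) := by simp only [mul_assoc]
  rw [e1]
  simp only [lc, Finset.sum_mul]
  refine Finset.sum_congr rfl (fun i _ => ?_)
  rw [Finset.mul_sum]
  refine Finset.sum_congr rfl (fun j _ => ?_)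
  rw [Finset.mul_sum, Finset.mul_sum]
  refine Finset.sum_congr rfl (fun k _ => ?_)
  rw [Finset.mul_sum, Finset.mul_sum, Finset.mul_sum]
  refine Finset.sum_congr rfl (fun l _ => ?_)
  simp only [smul_mul_assoc, mul_smul_comm, smul_smul, mul_assoc]
  congr 1
  ring

theorem dsg_expand2 {n : ℕ} {A : Type} [Ring A] [Algebra ℂ A] (a b : Fin n → ℂ)
    (M v : Fin n → A) :
    lc a M * lc b v = ∑ i, ∑ j, (a i * b j) • (M i * v j) := by
  unfold lc
  rw [Finset.sum_mul_sum]
  refine Finset.sum_congr rfl (fun i _ => ?_)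
  refine Finset.sum_congr rfl (fun j _ => ?_)
  simp only [smul_mul_assoc, mul_smul_comm, smul_smul]
  congr 1
  ring

theorem t_DSG : S_DSG := by
  intro n A _ _ M v w
  have h1 : ∑ p : Fin n → Fin 4, lc (cj (ph p)) M * lc (ph p) v * lc (cj (ph p)) w * lc (ph p) v =
      ∑ i, ∑ j, ∑ k, ∑ l, (∑ p : Fin n → Fin 4, conj (ph p i) * ph p j * conj (ph p k) * ph p l) •
        (M i * v j * w k * v l) := by
    simp only [dsg_expand]
    rw [Finset.sum_comm]
    refine Finset.sum_congr rfl (fun i _ => ?_)
    rw [Finset.sum_comm]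
    refine Finset.sum_congr rfl (fun j _ => ?_)
    rw [Finset.sum_comm]
    refine Finset.sum_congr rfl (fun k _ => ?_)
    rw [Finset.sum_comm]
    refine Finset.sum_congr rfl (fun l _ => ?_)
    rw [Finset.sum_smul]
    rfl
  rw [h1]
  simp only [dsg_four, mul_smul, ← Finset.smul_sum]
  congr 1
  simp only [sub_smul, add_smul, Finset.sum_sub_distrib, Finset.sum_add_distrib, ite_smul,
    one_smul, zero_smul]
  congr 1
  · congr 1
    · simp
    · refine Finset.sum_congr rfl (fun i _ => ?_)
      refine Finset.sum_congr rfl (fun j _ => ?_)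
      simp
  · simp

end Pool.Agent.K6.H97.AE
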