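import Pool.Agent.K6.H97.AE.Stm

/-! Piece DEF of call97b (helper51). -/

set_option autoImplicit false

open Filter Topology ComplexConjugate
open scoped InnerProductSpace

namespace Pool.Agent.K6.H97.AE

namespace DEF

variable {K : Type} [NormedAddCommGroup K] [InnerProductSpace ℂ K] [CompleteSpace K] {n : ℕ}

lemma mul_ap (A B : K →L[ℂ] K) (x : K) : (A * B) x = A (B x) := rfl

/-- `Re ⟪ξ, A η⟫` -/
noncomputable def q (ξ η : K) : (K →L[ℂ] K) →+ ℝ where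
  toFun A := (⟪ξ, A η⟫_ℂ).re
  map_zero' := by simp
  map_add' A B := by simp [inner_add_right]

lemma q_apply (ξ η : K) (A : K →L[ℂ] K) : q ξ η A = (⟪ξ, A η⟫_ℂ).re := rfl

lemma q_smul (ξ η : K) (c : ℝ) (A : K →L[ℂ] K) : q ξ η ((c : ℂ) • A) = c * q ξ η A := by
  rw [q_apply, q_apply, _root_.smul_apply, inner_smul_right, Complex.re_ofReal_mul]

lemma inner_star_right (A : K →L[ℂ] K) (x y : K) : ⟪x, star A y⟫_ℂ = ⟪A x, y⟫_ℂ := by
  rw [ContinuousLinearMap.star_eq_adjoint, ContinuousLinearMap.adjoint_inner_right]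

lemma inner_star_left (A : K →L[ℂ] K) (x y : K) : ⟪star A x, y⟫_ℂ = ⟪x, A y⟫_ℂ := by
  rw [ContinuousLinearMap.star_eq_adjoint, ContinuousLinearMap.adjoint_inner_left]

lemma norm_sq_eq (η : K) (v : K →L[ℂ] K) : ‖v η‖ ^ 2 = q η η (star v * v) := by
  rw [q_apply, mul_ap, inner_star_right, ← inner_self_eq_norm_sq (𝕜 := ℂ)]
  rfl

lemma norm_sq_eq' (ξ : K) (v : K →L[ℂ] K) : ‖star v ξ‖ ^ 2 = q ξ ξ (v * star v) := by
  have h := norm_sq_eq ξ (star v)
  rwa [star_star] at h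

lemma lc_star (a : Fin n → ℂ) (v : Fin n → K →L[ℂ] K) :
    lc (cj a) (fun k => star (v k)) = star (lc a v) := by
  simp only [lc, cj, star_sum, star_smul]
  rfl

lemma lc_smul (s : ℂ) (a : Fin n → ℂ) (v : Fin n → K →L[ℂ] K) : lc (s • a) v = s • lc a v := by
  simp only [lc, Pi.smul_apply, Finset.smul_sum, smul_smul, smul_eq_mul]

lemma lc_single (k : Fin n) (v : Fin n → K →L[ℂ] K) : lc (Pi.single k 1) v = v k := by
  simp only [lc]
  rw [Finset.sum_eq_single k]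
  · simp
  · intro j _ hj
    simp [Pi.single_eq_of_ne hj]
  · intro h
    exact absurd (Finset.mem_univ k) h

lemma norm_single_le {v : Fin n → K →L[ℂ] K} (hv : ∀ a : Fin n → ℂ, ‖lc a v‖ ^ 2 ≤ ∑ k, ‖a k‖ ^ 2)
    (k : Fin n) : ‖v k‖ ≤ 1 := by
  have h := hv (Pi.single k 1)
  rw [lc_single] at h
  have h1 : ∑ j, ‖(Pi.single k 1 : Fin n → ℂ) j‖ ^ 2 = 1 := by
    rw [Finset.sum_eq_single k]
    · simp
    · intro j _ hj
      simp [Pi.single_eq_of_ne hj]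
    · intro h
      exact absurd (Finset.mem_univ k) h
  rw [h1] at h
  nlinarith [norm_nonneg (v k)]

lemma norm_ph (p : Fin n → Fin 4) (k : Fin n) : ‖ph p k‖ = 1 := by
  simp [ph]

lemma norm_lc_ph {v : Fin n → K →L[ℂ] K} (hv : ∀ a : Fin n → ℂ, ‖lc a v‖ ^ 2 ≤ ∑ k, ‖a k‖ ^ 2)
    (a : Fin n → ℂ) (ha : ∀ k, ‖a k‖ = 1) (hn : 1 ≤ n) {s : ℝ} (hs : 0 ≤ s) (hs2 : s ^ 2 = 1 / n) :
    ‖(s : ℂ) • lc a v‖ ≤ 1 := by
  have h := hv a
  simp only [ha, one_pow, Finset.sum_const, Finset.card_univ, Fintype.card_fin, nsmul_eq_mul, mul_one] at h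
  have hn0 : (0 : ℝ) < n := by exact_mod_cast hn
  have h2 : ‖(s : ℂ) • lc a v‖ ^ 2 ≤ 1 := by
    rw [norm_smul, mul_pow, Complex.norm_real, Real.norm_of_nonneg hs, hs2]
    calc 1 / (n : ℝ) * ‖lc a v‖ ^ 2 ≤ 1 / n * n := by
          apply mul_le_mul_of_nonneg_left h (by positivity)
      _ = 1 := by field_simp
  nlinarith [norm_nonneg ((s : ℂ) • lc a v)]

lemma comm_lc {M v : Fin n → K →L[ℂ] K} (h : ∀ k l, M k * v l = v l * M k) (a b : Fin n → ℂ) :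
    lc a M * lc b v = lc b v * lc a M := by
  simp only [lc, Finset.sum_mul, Finset.mul_sum, smul_mul_assoc, mul_smul_comm, Finset.smul_sum]
  rw [Finset.sum_comm]
  refine Finset.sum_congr rfl fun k _ => Finset.sum_congr rfl fun l _ => ?_
  rw [h, smul_comm]

lemma key (hpos : S_POS) {M v : K →L[ℂ] K} {s : ℝ} {n : ℕ} (hn : 1 ≤ n) (hs : 0 ≤ s) (hs2 : s ^ 2 = 1 / n)
    (hM : ‖(s : ℂ) • M‖ ≤ 1) (hv : ‖(s : ℂ) • v‖ ≤ 1) (hc : M * v = v * M) (hc' : M * star v = star v * M)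
    (ξ η : K) : 0 ≤ n * (q ξ ξ (v * star v) + q η η (star v * v)) / 2 - q ξ η (M * v * star v * v) := by
  have hn0 : (0 : ℝ) < n := by exact_mod_cast hn
  have hst : star ((s : ℂ) • v) = (s : ℂ) • star v := by
    rw [star_smul]
    congr 1
    exact Complex.conj_ofReal s
  obtain ⟨h1, h2⟩ := hpos K ((s : ℂ) • M) ((s : ℂ) • v) hM hv
    (by rw [smul_mul_assoc, mul_smul_comm, smul_mul_assoc, mul_smul_comm, hc])
    (by rw [hst, smul_mul_assoc, mul_smul_comm, smul_mul_assoc, mul_smul_comm, hc']) ξ η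
  have h3 : 0 ≤ (‖star ((s : ℂ) • v) ξ‖ ^ 2 + ‖((s : ℂ) • v) η‖ ^ 2) / 2 -
      (⟪ξ, ((s : ℂ) • M) (((s : ℂ) • v) (star ((s : ℂ) • v) (((s : ℂ) • v) η)))⟫_ℂ).re := by
    refine le_trans ?_ h2
    positivity
  have h4 : ‖star ((s : ℂ) • v) ξ‖ ^ 2 = s ^ 2 * q ξ ξ (v * star v) := by
    rw [hst, _root_.smul_apply, norm_smul, mul_pow, norm_sq_eq', Complex.norm_real,
      Real.norm_of_nonneg hs]
  have h5 : ‖((s : ℂ) • v) η‖ ^ 2 = s ^ 2 * q η η (star v * v) := by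
    rw [_root_.smul_apply, norm_smul, mul_pow, norm_sq_eq, Complex.norm_real,
      Real.norm_of_nonneg hs]
  have h6 : (⟪ξ, ((s : ℂ) • M) (((s : ℂ) • v) (star ((s : ℂ) • v) (((s : ℂ) • v) η)))⟫_ℂ).re =
      s ^ 2 * s ^ 2 * q ξ η (M * v * star v * v) := by
    have h7 : ((s : ℂ) • M) (((s : ℂ) • v) (star ((s : ℂ) • v) (((s : ℂ) • v) η))) =
        (((s ^ 2 * s ^ 2 : ℝ) : ℂ) • (M * v * star v * v)) η := by
      rw [hst]
      simp only [_root_.smul_apply, mul_ap, map_smul, smul_smul]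
      congr 1
      push_cast
      ring
    rw [h7, ← q_apply, q_smul]
  rw [h4, h5, h6, hs2] at h3
  have h8 : (n : ℝ) * (q ξ ξ (v * star v) + q η η (star v * v)) / 2 - q ξ η (M * v * star v * v) =
      n ^ 2 * ((1 / n * q ξ ξ (v * star v) + 1 / n * q η η (star v * v)) / 2 -
        1 / n * (1 / n) * q ξ η (M * v * star v * v)) := by
    field_simp
  rw [h8]
  positivity

end DEF

open DEF in
theorem t_DEF : S_DSG → S_DS2 → S_POS → S_DEF := by
  intro hdsg hds2 hpos K _ _ _ n hn M v hd ξ η hξ hη k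
  classical
  have hn0 : (0 : ℝ) < n := by exact_mod_cast hn
  set w : Fin n → K →L[ℂ] K := fun k => star (v k) with hw
  set T : K →L[ℂ] K := TT M v with hT
  set P : K →L[ℂ] K := ∑ k, w k * v k with hP
  set Q : K →L[ℂ] K := ∑ k, v k * w k with hQ
  set N : K →L[ℂ] K := ∑ k, M k * v k * w k * v k with hN
  -- the points of the design
  obtain ⟨s, hs, hs2⟩ : ∃ s : ℝ, 0 ≤ s ∧ s ^ 2 = 1 / n :=
    ⟨Real.sqrt (1 / n), Real.sqrt_nonneg _, Real.sq_sqrt (by positivity)⟩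
  have hcs : ∀ k l, M k * w l = w l * M k := hd.hc'
  have hX : ∀ p : Fin n → Fin 4, 0 ≤ n * (q ξ ξ (lc (ph p) v * lc (cj (ph p)) w) +
      q η η (lc (cj (ph p)) w * lc (ph p) v)) / 2 -
      q ξ η (lc (cj (ph p)) M * lc (ph p) v * lc (cj (ph p)) w * lc (ph p) v) := by
    intro p
    have hstar : lc (cj (ph p)) w = star (lc (ph p) v) := lc_star (ph p) v
    have hcc : ∀ k, ‖cj (ph p) k‖ = 1 := by
      intro k
      have h := norm_ph p k
      simpa [cj] using h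
    have h := key hpos (M := lc (cj (ph p)) M) (v := lc (ph p) v) hn hs hs2
      (norm_lc_ph hd.hM _ hcc hn hs hs2) (norm_lc_ph hd.hv _ (norm_ph p) hn hs hs2)
      (comm_lc hd.hc _ _) (by rw [← hstar]; exact comm_lc hcs _ _) ξ η
    rw [hstar]
    exact h
  have hXs := Finset.sum_nonneg fun p (_ : p ∈ (Finset.univ : Finset (Fin n → Fin 4))) => hX p
  have h4 : ((4 : ℂ) ^ n) = (((4 : ℝ) ^ n : ℝ) : ℂ) := by push_cast; rfl
  have e1 : ∑ p : Fin n → Fin 4, q ξ ξ (lc (ph p) v * lc (cj (ph p)) w) = 4 ^ n * q ξ ξ Q := by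
    rw [← map_sum, (hds2 n _ w v).2, h4, q_smul]
  have e2 : ∑ p : Fin n → Fin 4, q η η (lc (cj (ph p)) w * lc (ph p) v) = 4 ^ n * q η η P := by
    rw [← map_sum, (hds2 n _ w v).1, h4, q_smul]
  have e3 : ∑ p : Fin n → Fin 4, q ξ η (lc (cj (ph p)) M * lc (ph p) v * lc (cj (ph p)) w * lc (ph p) v) =
      4 ^ n * (q ξ η (T * P) + q ξ η (Q * T) - q ξ η N) := by
    rw [← map_sum, hdsg n _ M v w, h4, q_smul, map_sub, map_add]
    congr 4
    · rw [hT, hP, TT, Finset.sum_mul_sum]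
      refine Finset.sum_congr rfl fun l _ => Finset.sum_congr rfl fun j _ => ?_
      simp only [mul_assoc]
    · rw [hT, hQ, TT, Finset.sum_mul_sum, Finset.sum_comm]
      refine Finset.sum_congr rfl fun i _ => Finset.sum_congr rfl fun l _ => ?_
      calc M l * v i * w i * v l = (M l * v i) * w i * v l := rfl
        _ = v i * (M l * w i) * v l := by rw [hd.hc]; simp only [mul_assoc]
        _ = v i * w i * (M l * v l) := by rw [hcs]; simp only [mul_assoc]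
  rw [Finset.sum_sub_distrib, e3, ← Finset.sum_div, ← Finset.mul_sum, Finset.sum_add_distrib, e1, e2] at hXs
  have h40 : (0 : ℝ) < 4 ^ n := by positivity
  have hX2 : 0 ≤ n * (q ξ ξ Q + q η η P) / 2 - (q ξ η (T * P) + q ξ η (Q * T) - q ξ η N) := by
    have h5 : 4 ^ n * (n * (q ξ ξ Q + q η η P) / 2 - (q ξ η (T * P) + q ξ η (Q * T) - q ξ η N)) =
        (n : ℝ) * (4 ^ n * q ξ ξ Q + 4 ^ n * q η η P) / 2 - 4 ^ n * (q ξ η (T * P) + q ξ η (Q * T) - q ξ η N) := by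
      ring
    rw [← h5] at hXs
    exact nonneg_of_mul_nonneg_right hXs h40
  -- the basis vectors
  have hk : ∀ j, 0 ≤ (‖v j η‖ ^ 2 - ‖star (v j) (v j η)‖ ^ 2) / 2 +
        ‖star (v j) ξ - M j (star (v j) (v j η))‖ ^ 2 / 2 ∧
      (‖v j η‖ ^ 2 - ‖star (v j) (v j η)‖ ^ 2) / 2 + ‖star (v j) ξ - M j (star (v j) (v j η))‖ ^ 2 / 2 ≤
      (q ξ ξ (v j * w j) + q η η (w j * v j)) / 2 - q ξ η (M j * v j * w j * v j) := by
    intro j
    obtain ⟨h1, h2⟩ := hpos K (M j) (v j) (norm_single_le hd.hM j) (norm_single_le hd.hv j) (hd.hc j j)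
      (hd.hc' j j) ξ η
    refine ⟨by positivity, ?_⟩
    rw [norm_sq_eq' ξ (v j)] at h2
    have h3 : ‖v j η‖ ^ 2 = q η η (w j * v j) := norm_sq_eq η (v j)
    rw [← h3]
    exact h2
  have hks : (‖v k η‖ ^ 2 - ‖star (v k) (v k η)‖ ^ 2) / 2 +
      ‖star (v k) ξ - M k (star (v k) (v k η))‖ ^ 2 / 2 ≤
      (q ξ ξ Q + q η η P) / 2 - q ξ η N := by
    have h5 : (q ξ ξ Q + q η η P) / 2 - q ξ η N =
        ∑ j, ((q ξ ξ (v j * w j) + q η η (w j * v j)) / 2 - q ξ η (M j * v j * w j * v j)) := by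
      rw [Finset.sum_sub_distrib, ← Finset.sum_div, Finset.sum_add_distrib, hQ, hP, hN, map_sum, map_sum, map_sum]
    rw [h5]
    refine (hk k).2.trans ?_
    exact Finset.single_le_sum (f := fun j => (q ξ ξ (v j * w j) + q η η (w j * v j)) / 2 -
      q ξ η (M j * v j * w j * v j)) (fun j _ => (hk j).1.trans (hk j).2) (Finset.mem_univ k)
  -- the norms of `P` and `Q`
  have hwn : ∀ j, ‖w j‖ ≤ 1 := fun j => by
    rw [hw]
    simp only [norm_star]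
    exact norm_single_le hd.hv j
  have hvn : ∀ j, ‖v j‖ ≤ 1 := norm_single_le hd.hv
  have hPn : ‖P‖ ≤ n := by
    refine (norm_sum_le _ _).trans ?_
    calc ∑ j, ‖w j * v j‖ ≤ ∑ _j : Fin n, (1 : ℝ) := Finset.sum_le_sum fun j _ =>
          (norm_mul_le _ _).trans (mul_le_one₀ (hwn j) (norm_nonneg _) (hvn j))
      _ = n := by simp
  have hQn : ‖Q‖ ≤ n := by
    refine (norm_sum_le _ _).trans ?_
    calc ∑ j, ‖v j * w j‖ ≤ ∑ _j : Fin n, (1 : ℝ) := Finset.sum_le_sum fun j _ =>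
          (norm_mul_le _ _).trans (mul_le_one₀ (hvn j) (norm_nonneg _) (hwn j))
      _ = n := by simp
  -- the errors
  set r1 : K := T η - gam n • ξ with hr1
  set r2 : K := star T ξ - gam n • η with hr2
  have hg : gam n = ((((n : ℝ) + 1) / 2 : ℝ) : ℂ) := by
    simp only [gam]
    push_cast
    rfl
  have f1 : q ξ η (T * P) = ((n : ℝ) + 1) / 2 * q η η P + (⟪r2, P η⟫_ℂ).re := by
    have h5 : star T ξ = gam n • η + r2 := by rw [hr2]; abel
    rw [q_apply, mul_ap, ← inner_star_left, h5, inner_add_left, Complex.add_re,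
      inner_smul_left, hg, Complex.conj_ofReal, Complex.re_ofReal_mul, q_apply]
  have f2 : q ξ η (Q * T) = ((n : ℝ) + 1) / 2 * q ξ ξ Q + (⟪ξ, Q r1⟫_ℂ).re := by
    have h5 : T η = gam n • ξ + r1 := by rw [hr1]; abel
    rw [q_apply, mul_ap, h5, map_add, map_smul, inner_add_right, Complex.add_re,
      inner_smul_right, hg, Complex.re_ofReal_mul, q_apply]
  have g1 : -(⟪r2, P η⟫_ℂ).re ≤ n * ‖r2‖ := by
    calc -(⟪r2, P η⟫_ℂ).re ≤ |(⟪r2, P η⟫_ℂ).re| := neg_le_abs _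
      _ ≤ ‖⟪r2, P η⟫_ℂ‖ := Complex.abs_re_le_norm _
      _ ≤ ‖r2‖ * ‖P η‖ := norm_inner_le_norm _ _
      _ ≤ ‖r2‖ * (n * 1) := by
        apply mul_le_mul_of_nonneg_left _ (norm_nonneg _)
        refine (P.le_opNorm η).trans ?_
        exact mul_le_mul hPn hη (norm_nonneg _) hn0.le
      _ = n * ‖r2‖ := by ring
  have g2 : -(⟪ξ, Q r1⟫_ℂ).re ≤ n * ‖r1‖ := by
    calc -(⟪ξ, Q r1⟫_ℂ).re ≤ |(⟪ξ, Q r1⟫_ℂ).re| := neg_le_abs _
      _ ≤ ‖⟪ξ, Q r1⟫_ℂ‖ := Complex.abs_re_le_norm _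
      _ ≤ ‖ξ‖ * ‖Q r1‖ := norm_inner_le_norm _ _
      _ ≤ 1 * (n * ‖r1‖) := by
        apply mul_le_mul hξ _ (norm_nonneg _) zero_le_one
        refine (Q.le_opNorm r1).trans ?_
        exact mul_le_mul_of_nonneg_right hQn (norm_nonneg _)
      _ = n * ‖r1‖ := by ring
  rw [f1, f2] at hX2
  linarith

end Pool.Agent.K6.H97.AE
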