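import Pool.Agent.K6.H97.AE.Stm

/-! # Piece IDL -/

set_option autoImplicit false

open Filter Topology ComplexConjugate
open scoped InnerProductSpace

namespace Pool.Agent.K6.H97.AE

section

variable {K : Type} [NormedAddCommGroup K] [InnerProductSpace ℂ K] [CompleteSpace K]
    {n : ℕ} {M v : Fin n → K →L[ℂ] K}

theorem IDL.single {A : Type} [AddCommMonoid A] [Module ℂ A] (w : Fin n → A) (i : Fin n) :
    lc (Pi.single i (1 : ℂ)) w = w i := by
  unfold lc
  rw [Finset.sum_eq_single i]
  · rw [Pi.single_eq_same, one_smul]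
  · intro j _ hj
    rw [Pi.single_eq_of_ne hj, zero_smul]
  · intro h
    exact absurd (Finset.mem_univ i) h

theorem IDL.single_sum (i : Fin n) : ∑ k, ‖(Pi.single i (1 : ℂ) : Fin n → ℂ) k‖ ^ 2 = 1 := by
  rw [Finset.sum_eq_single i]
  · rw [Pi.single_eq_same, norm_one, one_pow]
  · intro j _ hj
    rw [Pi.single_eq_of_ne hj, norm_zero]
    norm_num
  · intro h
    exact absurd (Finset.mem_univ i) h

theorem IDL.v_le (h : Dat M v) (i : Fin n) : ‖v i‖ ≤ 1 := by
  have h1 := h.hv (Pi.single i 1)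
  rw [IDL.single, IDL.single_sum] at h1
  have h0 := norm_nonneg (v i)
  nlinarith

theorem IDL.M_le (h : Dat M v) (i : Fin n) : ‖M i‖ ≤ 1 := by
  have h1 := h.hM (Pi.single i 1)
  rw [IDL.single, IDL.single_sum] at h1
  have h0 := norm_nonneg (M i)
  nlinarith

theorem IDL.prod_le {a b : K →L[ℂ] K} (ha : ‖a‖ ≤ 1) (hb : ‖b‖ ≤ 1) : ‖star a * b‖ ≤ 1 := by
  calc ‖star a * b‖ ≤ ‖star a‖ * ‖b‖ := norm_mul_le _ _
    _ ≤ 1 * 1 := by
        rw [norm_star]
        exact mul_le_mul ha hb (norm_nonneg _) zero_le_one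
    _ = 1 := one_mul _

theorem IDL.comm (h : Dat M v) (i j : Fin n) (p : FreeAlgebra ℂ (Fin n × Fin n)) :
    rho v p * (star (M j) * M i) = (star (M j) * M i) * rho v p := by
  have hc2 : ∀ k l, star (M k) * v l = v l * star (M k) := by
    intro k l
    have := congrArg star (h.hc' k l)
    rw [star_mul, star_mul, star_star] at this
    exact this.symm
  have hc3 : ∀ k l, star (M k) * star (v l) = star (v l) * star (M k) := by
    intro k l
    have := congrArg star (h.hc k l)
    rw [star_mul, star_mul] at this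
    exact this.symm
  induction p using FreeAlgebra.induction with
  | grade0 r =>
    rw [AlgHom.commutes]
    exact Algebra.commutes r _
  | grade1 x =>
    have h1 : rho v (FreeAlgebra.ι ℂ x) = star (v x.1) * v x.2 := by
      unfold rho
      rw [FreeAlgebra.lift_ι_apply]
    rw [h1]
    calc star (v x.1) * v x.2 * (star (M j) * M i) =
          star (v x.1) * (v x.2 * star (M j)) * M i := by simp only [mul_assoc]
      _ = (star (v x.1) * star (M j)) * (v x.2 * M i) := by rw [← hc2]; simp only [mul_assoc]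
      _ = star (M j) * (star (v x.1) * M i) * v x.2 := by
          rw [← hc3, ← h.hc]; simp only [mul_assoc]
      _ = star (M j) * M i * (star (v x.1) * v x.2) := by
          rw [← h.hc']; simp only [mul_assoc]
  | mul a b ha hb =>
    rw [map_mul, mul_assoc, hb, ← mul_assoc, ha, mul_assoc]
  | add a b ha hb =>
    rw [map_add, add_mul, mul_add, ha, hb]

end

section

variable {n : ℕ} {K : ℕ → Type} [∀ t, NormedAddCommGroup (K t)]
    [∀ t, InnerProductSpace ℂ (K t)] [∀ t, CompleteSpace (K t)]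
    {M v : ∀ t, Fin n → (K t →L[ℂ] K t)} {ξ η : ∀ t, K t}

theorem IDL.bdd (hd : ∀ t, Dat (M t) (v t)) (q : FreeAlgebra ℂ (Fin n × Fin n)) :
    ∃ C : ℝ, 0 ≤ C ∧ ∀ t, ‖rho (v t) q‖ ≤ C := by
  induction q using FreeAlgebra.induction with
  | grade0 r =>
    refine ⟨‖r‖, norm_nonneg _, fun t => ?_⟩
    rw [AlgHom.commutes, Algebra.algebraMap_eq_smul_one]
    calc ‖r • (1 : K t →L[ℂ] K t)‖ ≤ ‖r‖ * ‖(1 : K t →L[ℂ] K t)‖ := norm_smul_le _ _
      _ ≤ ‖r‖ * 1 := mul_le_mul_of_nonneg_left ContinuousLinearMap.norm_id_le (norm_nonneg _)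
      _ = ‖r‖ := mul_one _
  | grade1 x =>
    refine ⟨1, zero_le_one, fun t => ?_⟩
    have h1 : rho (v t) (FreeAlgebra.ι ℂ x) = star (v t x.1) * v t x.2 := by
      unfold rho
      rw [FreeAlgebra.lift_ι_apply]
    rw [h1]
    exact IDL.prod_le (IDL.v_le (hd t) _) (IDL.v_le (hd t) _)
  | mul a b ha hb =>
    obtain ⟨C, hC0, hC⟩ := ha
    obtain ⟨D, hD0, hD⟩ := hb
    refine ⟨C * D, mul_nonneg hC0 hD0, fun t => ?_⟩
    rw [map_mul]
    exact (norm_mul_le _ _).trans (mul_le_mul (hC t) (hD t) (norm_nonneg _) hC0)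
  | add a b ha hb =>
    obtain ⟨C, hC0, hC⟩ := ha
    obtain ⟨D, hD0, hD⟩ := hb
    refine ⟨C + D, add_nonneg hC0 hD0, fun t => ?_⟩
    rw [map_add]
    exact (norm_add_le _ _).trans (add_le_add (hC t) (hD t))

theorem IDL.small_of_le {x y : ∀ t, K t} {C : ℝ} (hy : Small y) (h : ∀ t, ‖x t‖ ≤ C * ‖y t‖) :
    Small x := by
  unfold Small at hy ⊢
  have h1 := hy.const_mul C
  rw [mul_zero] at h1
  exact squeeze_zero (fun t => norm_nonneg _) h h1

theorem IDL.small_add {x y : ∀ t, K t} (hx : Small x) (hy : Small y) :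
    Small (fun t => x t + y t) := by
  unfold Small at hx hy ⊢
  have h1 := hx.add hy
  rw [add_zero] at h1
  exact squeeze_zero (fun t => norm_nonneg _) (fun t => norm_add_le _ _) h1

end

/-- **Piece IDL**. -/
theorem t_IDL : S_IDL := by
  intro n hn K _ _ _ M v ξ η hS hC3
  have hadd : ∀ p q, InI v η p → InI v η q → InI v η (p + q) := by
    intro p q hp hq
    unfold InI at hp hq ⊢
    have h1 := IDL.small_add hp hq
    have h2 : (fun t => rho (v t) (p + q) (η t)) =
        fun t => rho (v t) p (η t) + rho (v t) q (η t) := by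
      funext t
      rw [map_add]
      rfl
    rw [h2]
    exact h1
  have hleft : ∀ p q, InI v η p → InI v η (q * p) := by
    intro p q hp
    obtain ⟨C, hC0, hC⟩ := IDL.bdd hS.dat q
    unfold InI at hp ⊢
    refine IDL.small_of_le (C := C) hp fun t => ?_
    rw [map_mul]
    exact ((rho (v t) q).le_opNorm _).trans (mul_le_mul_of_nonneg_right (hC t) (norm_nonneg _))
  refine ⟨hadd, hleft, ?_⟩
  intro p q
  revert p
  induction q using FreeAlgebra.induction with
  | grade0 r =>
    intro p hp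
    rw [← Algebra.commutes r p]
    exact hleft p _ hp
  | grade1 x =>
    intro p hp
    obtain ⟨C, hC0, hC⟩ := IDL.bdd hS.dat p
    have hp' := hp
    unfold InI at hp ⊢
    have h1 : Small (fun t => rho (v t) p (star (v t x.1) (v t x.2 (η t)) -
        star (M t x.2) (M t x.1 (η t)))) :=
      IDL.small_of_le (C := C) (hC3 x.1 x.2) fun t =>
        ((rho (v t) p).le_opNorm _).trans (mul_le_mul_of_nonneg_right (hC t) (norm_nonneg _))
    have h2 : Small (fun t => (star (M t x.2) * M t x.1) (rho (v t) p (η t))) :=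
      IDL.small_of_le (C := 1) hp fun t =>
        ((star (M t x.2) * M t x.1).le_opNorm _).trans (mul_le_mul_of_nonneg_right
          (IDL.prod_le (IDL.M_le (hS.dat t) _) (IDL.M_le (hS.dat t) _)) (norm_nonneg _))
    have h3 := IDL.small_add h1 h2
    have h4 : (fun t => rho (v t) (p * FreeAlgebra.ι ℂ x) (η t)) = fun t =>
        rho (v t) p (star (v t x.1) (v t x.2 (η t)) - star (M t x.2) (M t x.1 (η t))) +
          (star (M t x.2) * M t x.1) (rho (v t) p (η t)) := by
      funext t
      have h5 : rho (v t) (FreeAlgebra.ι ℂ x) = star (v t x.1) * v t x.2 := by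
        unfold rho
        rw [FreeAlgebra.lift_ι_apply]
      have h6 := congrArg (fun f : K t →L[ℂ] K t => f (η t)) (IDL.comm (hS.dat t) x.1 x.2 p)
      have h7 : rho (v t) p (star (M t x.2) (M t x.1 (η t))) =
          (star (M t x.2) * M t x.1) (rho (v t) p (η t)) := h6
      rw [map_mul, h5, map_sub, ← h7, sub_add_cancel]
      rfl
    rw [h4]
    exact h3
  | mul a b ha hb =>
    intro p hp
    rw [← mul_assoc]
    exact hb _ (ha p hp)
  | add a b ha hb =>
    intro p hp
    rw [mul_add]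
    exact hadd _ _ (ha p hp) (hb p hp)

end Pool.Agent.K6.H97.AE
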