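import Pool.Agent.K6.H97.AE.Stm

set_option autoImplicit false

open Filter Topology ComplexConjugate
open scoped InnerProductSpace

namespace Pool.Agent.K6.H97.AE

theorem kl_vfv {K : Type} [NormedAddCommGroup K] [InnerProductSpace ℂ K] [CompleteSpace K]
    (V : K →L[ℂ] K) (hV : ‖V‖ ≤ 1) (η : K) :
    ‖V (star V (V η)) - V η‖ ^ 2 ≤ ‖V η‖ ^ 2 - ‖star V (V η)‖ ^ 2 := by
  have e1 : ‖V (star V (V η)) - V η‖ ^ 2 = ‖V (star V (V η))‖ ^ 2 -
      2 * (⟪V (star V (V η)), V η⟫_ℂ).re + ‖V η‖ ^ 2 := by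
    rw [@norm_sub_sq ℂ]
    rfl
  have e2 : ⟪V (star V (V η)), V η⟫_ℂ = ⟪star V (V η), star V (V η)⟫_ℂ := by
    rw [ContinuousLinearMap.star_eq_adjoint V, ContinuousLinearMap.adjoint_inner_right]
  have e3 : (⟪star V (V η), star V (V η)⟫_ℂ).re = ‖star V (V η)‖ ^ 2 := by
    rw [inner_self_eq_norm_sq_to_K]
    norm_cast
  have e4 : ‖V (star V (V η))‖ ≤ ‖star V (V η)‖ := by
    calc _ ≤ ‖V‖ * ‖star V (V η)‖ := V.le_opNorm _
      _ ≤ 1 * ‖star V (V η)‖ := by gcongr
      _ = _ := one_mul _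
  have e5 : ‖V (star V (V η))‖ ^ 2 ≤ ‖star V (V η)‖ ^ 2 := by gcongr
  rw [e1, e2, e3]
  linarith

theorem t_KL : S_DEF → S_ROT → S_KL := by
  intro hDEF hROT n hn K _ _ _ M v ξ η hS z hz
  -- the error
  set err : ℕ → ℝ := fun t => n * (‖TT (M t) (v t) (η t) - gam n • ξ t‖ +
    ‖star (TT (M t) (v t)) (ξ t) - gam n • η t‖) with herr
  have herr0 : Tendsto err atTop (𝓝 0) := by
    have h1 := hS.h1
    have h2 := hS.h2
    unfold Small at h1 h2
    have := (h1.add h2).const_mul (n : ℝ)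
    simpa [herr] using this
  have hVn : ∀ t, ‖lc z (v t)‖ ≤ 1 := by
    intro t
    have h := (hS.dat t).hv z
    rw [hz] at h
    nlinarith [norm_nonneg (lc z (v t))]
  have hpt : ∀ t, (‖lc z (v t) (η t)‖ ^ 2 - ‖star (lc z (v t)) (lc z (v t) (η t))‖ ^ 2) / 2 +
      ‖star (lc z (v t)) (ξ t) - lc (cj z) (M t) (star (lc z (v t)) (lc z (v t) (η t)))‖ ^ 2 / 2 ≤
      err t := by
    intro t
    obtain ⟨M', v', k, hD, hT, hv', hM'⟩ := hROT (K t) n (M t) (v t) (hS.dat t) z hz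
    have := hDEF (K t) n hn M' v' hD (ξ t) (η t) (hS.hξ t) (hS.hη t) k
    rw [hT, hv', hM'] at this
    exact this
  have hnn : ∀ t, 0 ≤ ‖lc z (v t) (η t)‖ ^ 2 - ‖star (lc z (v t)) (lc z (v t) (η t))‖ ^ 2 :=
    fun t => (sq_nonneg _).trans (kl_vfv (lc z (v t)) (hVn t) (η t))
  have hsq : Tendsto (fun t => Real.sqrt (2 * err t)) atTop (𝓝 0) := by
    have h1 : Tendsto (fun t => 2 * err t) atTop (𝓝 (2 * 0)) := herr0.const_mul 2
    have h2 := (Real.continuous_sqrt.tendsto (2 * 0)).comp h1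
    rw [mul_zero, Real.sqrt_zero] at h2
    exact h2
  have hA : ∀ t, ‖lc z (v t) (star (lc z (v t)) (lc z (v t) (η t))) - lc z (v t) (η t)‖ ≤
      Real.sqrt (2 * err t) := by
    intro t
    apply Real.le_sqrt_of_sq_le
    have h1 := kl_vfv (lc z (v t)) (hVn t) (η t)
    have h2 := hpt t
    have h3 : 0 ≤ ‖star (lc z (v t)) (ξ t) -
      lc (cj z) (M t) (star (lc z (v t)) (lc z (v t) (η t)))‖ ^ 2 := by positivity
    linarith
  have hB : ∀ t, ‖star (lc z (v t)) (ξ t) -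
      lc (cj z) (M t) (star (lc z (v t)) (lc z (v t) (η t)))‖ ≤ Real.sqrt (2 * err t) := by
    intro t
    apply Real.le_sqrt_of_sq_le
    have h2 := hpt t
    have h3 := hnn t
    linarith
  have hMn : ∀ t, ‖lc (cj z) (M t)‖ ≤ 1 := by
    intro t
    have h := (hS.dat t).hM (cj z)
    have h2 : ∑ k, ‖cj z k‖ ^ 2 = 1 := by
      rw [← hz]
      refine Finset.sum_congr rfl fun k _ => ?_
      unfold cj
      rw [Complex.norm_conj]
    rw [h2] at h
    nlinarith [norm_nonneg (lc (cj z) (M t))]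
  have hcomm : ∀ t (x : K t), lc (cj z) (M t) (lc z (v t) x) = lc z (v t) (lc (cj z) (M t) x) := by
    intro t x
    have : lc (cj z) (M t) * lc z (v t) = lc z (v t) * lc (cj z) (M t) := by
      unfold lc
      rw [Finset.sum_mul_sum, Finset.sum_mul_sum, Finset.sum_comm]
      refine Finset.sum_congr rfl fun k _ => Finset.sum_congr rfl fun l _ => ?_
      rw [smul_mul_smul_comm, smul_mul_smul_comm, (hS.dat t).hc, mul_comm]
    exact congrArg (fun T : K t →L[ℂ] K t => T x) this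
  refine ⟨?_, ?_⟩
  · exact squeeze_zero (fun t => norm_nonneg _) hA hsq
  · have hC : ∀ t, ‖lc (cj z) (M t) (lc z (v t) (η t)) -
        lc z (v t) (star (lc z (v t)) (ξ t))‖ ≤ 2 * Real.sqrt (2 * err t) := by
      intro t
      have e1 : lc (cj z) (M t) (lc z (v t) (η t)) - lc z (v t) (star (lc z (v t)) (ξ t)) =
          - lc (cj z) (M t) (lc z (v t) (star (lc z (v t)) (lc z (v t) (η t))) - lc z (v t) (η t))
          - lc z (v t) (star (lc z (v t)) (ξ t) -
            lc (cj z) (M t) (star (lc z (v t)) (lc z (v t) (η t)))) := by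
        rw [map_sub, map_sub, hcomm t (star (lc z (v t)) (lc z (v t) (η t)))]
        abel
      rw [e1]
      refine (norm_sub_le _ _).trans ?_
      rw [norm_neg]
      have h1 : ‖lc (cj z) (M t) (lc z (v t) (star (lc z (v t)) (lc z (v t) (η t))) -
          lc z (v t) (η t))‖ ≤ 1 * Real.sqrt (2 * err t) :=
        ((lc (cj z) (M t)).le_opNorm _).trans (mul_le_mul (hMn t) (hA t) (norm_nonneg _) zero_le_one)
      have h2 : ‖lc z (v t) (star (lc z (v t)) (ξ t) -
            lc (cj z) (M t) (star (lc z (v t)) (lc z (v t) (η t))))‖ ≤ 1 * Real.sqrt (2 * err t) :=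
        ((lc z (v t)).le_opNorm _).trans (mul_le_mul (hVn t) (hB t) (norm_nonneg _) zero_le_one)
      linarith
    refine squeeze_zero (fun t => norm_nonneg _) hC ?_
    have := hsq.const_mul (2 : ℝ)
    simpa using this

end Pool.Agent.K6.H97.AE
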