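import Pool.Agent.Helper150.Al.AlphaLevel
import Pool.Agent.K6.H97.AE.Stm2

set_option autoImplicit false

open Filter Topology ComplexConjugate
open scoped InnerProductSpace Matrix.Norms.L2Operator

namespace Pool.Agent.K6.H97.AE

open Pool.Agent.Helper547.Alpha Pool.Agent.Helper150.Al

namespace NRM

/-- the standard basis -/
noncomputable def bas (n : ℕ) : Module.Basis (Fin n) ℂ (EuclideanSpace ℂ (Fin n)) :=
  (EuclideanSpace.basisFun (Fin n) ℂ).toBasis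

theorem bas_apply (n : ℕ) (k : Fin n) : bas n k = EuclideanSpace.single k 1 := by
  unfold bas
  rw [OrthonormalBasis.coe_toBasis, EuclideanSpace.basisFun_apply]

theorem dat_of {n : ℕ} {K : Type} [NormedAddCommGroup K] [InnerProductSpace ℂ K] [CompleteSpace K]
    {M : Fin n → K →L[ℂ] K} {f : EuclideanSpace ℂ (Fin n) → (K →L[ℂ] K)}
    (h : AdmF (bas n) M f) : Dat M (fun k => f (bas n k)) where
  hM := by
    intro a
    let z : EuclideanSpace ℂ (Fin n) := WithLp.toLp 2 (cj a)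
    have h1 := h.hM (innerSL ℂ z)
    have h2 : ∀ l, (innerSL ℂ z) (bas n l) = a l := by
      intro l
      rw [innerSL_apply_apply, bas_apply, EuclideanSpace.inner_single_right]
      simp [z, cj]
    have h3 : ‖innerSL ℂ z‖ ^ 2 = ∑ k, ‖a k‖ ^ 2 := by
      rw [innerSL_apply_norm, EuclideanSpace.norm_sq_eq]
      refine Finset.sum_congr rfl fun k _ => ?_
      simp [z, cj]
    simp only [h2] at h1
    rw [← h3]
    unfold lc
    gcongr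
  hv := by
    intro a
    let L : EuclideanSpace ℂ (Fin n) →ₗ[ℂ] (K →L[ℂ] K) :=
      { toFun := f, map_add' := h.hadd, map_smul' := h.hsmul }
    have h1 : lc a (fun k => f (bas n k)) = L (∑ k, a k • bas n k) := by
      rw [map_sum]
      refine Finset.sum_congr rfl fun k _ => ?_
      rw [map_smul]
      rfl
    have h2 : (∑ k, a k • bas n k) = (WithLp.toLp 2 a : EuclideanSpace ℂ (Fin n)) := by
      ext j
      simp [bas_apply, Finset.sum_apply, Pi.single_apply]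
    rw [h1, h2]
    calc ‖L (WithLp.toLp 2 a)‖ ^ 2 ≤ ‖(WithLp.toLp 2 a : EuclideanSpace ℂ (Fin n))‖ ^ 2 := by
          have := h.hn (WithLp.toLp 2 a)
          change ‖f _‖ ^ 2 ≤ _
          gcongr
      _ = ∑ k, ‖a k‖ ^ 2 := by rw [EuclideanSpace.norm_sq_eq]
  hc := fun k l => h.hc k _
  hc' := fun k l => h.hc' k _

theorem vectors {K : Type} [NormedAddCommGroup K] [InnerProductSpace ℂ K] [CompleteSpace K]
    (T : K →L[ℂ] K) {g ε : ℝ} (hg : 1 ≤ g) (hε : 0 < ε) (hε1 : ε ≤ 1 / 4) (hT1 : ‖T‖ ≤ g)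
    (hT2 : g - ε < ‖T‖) :
    ∃ ξ η : K, ‖ξ‖ ≤ 1 ∧ ‖η‖ ≤ 1 ∧ T η = (g : ℂ) • ξ ∧
      ‖star T ξ - (g : ℂ) • η‖ ^ 2 ≤ 2 * g * ε ∧ 1 / 2 ≤ ‖η‖ ^ 2 := by
  have hT0 : 0 < ‖T‖ := by linarith
  have hg0 : (0 : ℝ) < g := by linarith
  obtain ⟨η, h1, h2⟩ := exists_near T hT0 ε hε
  have hTη : ‖T η‖ ≤ g * ‖η‖ := (T.le_opNorm η).trans (by gcongr)
  have hgc : (g : ℂ) ≠ 0 := by exact_mod_cast hg0.ne'
  have h3 : T η = (g : ℂ) • (((g⁻¹ : ℝ) : ℂ) • T η) := by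
    rw [smul_smul, Complex.ofReal_inv, mul_inv_cancel₀ hgc, one_smul]
  have h4 : ‖((g⁻¹ : ℝ) : ℂ) • T η‖ = g⁻¹ * ‖T η‖ := by
    rw [norm_smul, Complex.norm_real, Real.norm_of_nonneg (by positivity)]
  generalize hξ : ((g⁻¹ : ℝ) : ℂ) • T η = ξ at h3 h4
  have h5 : g * ‖ξ‖ = ‖T η‖ := by
    rw [h4, ← mul_assoc, mul_inv_cancel₀ hg0.ne', one_mul]
  have h6 : ‖star T ξ‖ ≤ g * ‖ξ‖ := by
    refine ((star T).le_opNorm ξ).trans ?_
    rw [norm_star]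
    gcongr
  have h7 : (g - ε) ^ 2 ≤ ‖T‖ ^ 2 := by
    have : 0 ≤ g - ε := by linarith
    gcongr
  refine ⟨ξ, η, ?_, h1, h3, ?_, ?_⟩
  · have : g * ‖ξ‖ ≤ g * 1 := by
      rw [h5]
      exact hTη.trans (by gcongr)
    exact le_of_mul_le_mul_left this hg0
  · have e1 : RCLike.re ⟪star T ξ, (g : ℂ) • η⟫_ℂ = g ^ 2 * ‖ξ‖ ^ 2 := by
      rw [inner_smul_right, ContinuousLinearMap.star_eq_adjoint,
        ContinuousLinearMap.adjoint_inner_left, h3, inner_smul_right]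
      have e2 : (g : ℂ) * ((g : ℂ) * ⟪ξ, ξ⟫_ℂ) = ((g ^ 2 : ℝ) : ℂ) * ⟪ξ, ξ⟫_ℂ := by
        push_cast
        ring
      have e3 : (⟪ξ, ξ⟫_ℂ).re = ‖ξ‖ ^ 2 := inner_self_eq_norm_sq (𝕜 := ℂ) ξ
      rw [e2]
      change (((g ^ 2 : ℝ) : ℂ) * ⟪ξ, ξ⟫_ℂ).re = _
      rw [Complex.re_ofReal_mul, e3]
    rw [norm_sub_sq (𝕜 := ℂ), e1, norm_smul, Complex.norm_real, Real.norm_of_nonneg hg0.le]
    have h8 : ‖star T ξ‖ ^ 2 ≤ (g * ‖ξ‖) ^ 2 := by gcongr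
    have h9 : (g * ‖η‖) ^ 2 ≤ g ^ 2 := by
      calc (g * ‖η‖) ^ 2 ≤ (g * 1) ^ 2 := by gcongr
        _ = g ^ 2 := by ring
    have h10 : (g * ‖ξ‖) ^ 2 = ‖T η‖ ^ 2 := by rw [h5]
    nlinarith
  · have h8 : ‖T η‖ ^ 2 ≤ (g * ‖η‖) ^ 2 := by gcongr
    have h9 : g ^ 2 * (1 / 2) ≤ g ^ 2 * ‖η‖ ^ 2 := by nlinarith
    exact le_of_mul_le_mul_left h9 (by positivity)

theorem near {n : ℕ} (hn : 1 ≤ n)
    (h : ((n : ℝ) + 1) / 2 ≤ alpha (EuclideanSpace ℂ (Fin n))) (ε : ℝ) (hε : 0 < ε)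
    (hε1 : ε ≤ 1 / 4) :
    ∃ (K : Type) (_ : NormedAddCommGroup K) (_ : InnerProductSpace ℂ K) (_ : CompleteSpace K)
      (M v : Fin n → K →L[ℂ] K) (ξ η : K), Dat M v ∧ ‖ξ‖ ≤ 1 ∧ ‖η‖ ≤ 1 ∧
      TT M v η = gam n • ξ ∧ ‖star (TT M v) ξ - gam n • η‖ ^ 2 ≤ (n + 1) * ε ∧
      1 / 2 ≤ ‖η‖ ^ 2 := by
  have hne : {r : ℝ | ∃ (m : ℕ) (x : Matrix (Fin m) (Fin m) (EuclideanSpace ℂ (Fin n))),
      minNorm m x ≤ 1 ∧ r = maxNorm m x}.Nonempty := by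
    exact ⟨_, 0, 0, minNorm_le (fun f _ => by simp), rfl⟩
  obtain ⟨r, ⟨m, x, hx, rfl⟩, hr⟩ := exists_lt_of_lt_csSup hne
    (show ((n : ℝ) + 1) / 2 - ε < alpha (EuclideanSpace ℂ (Fin n)) by linarith)
  have hne2 : {r : ℝ | ∃ (H : Type) (_ : NormedAddCommGroup H) (_ : InnerProductSpace ℂ H)
    (_ : CompleteSpace H) (u : EuclideanSpace ℂ (Fin n) →L[ℂ] (H →L[ℂ] H)), ‖u‖ ≤ 1 ∧
      r = opNorm H m (x.map u)}.Nonempty :=
    ⟨_, ℂ, inferInstance, inferInstance, inferInstance, 0, by simp, rfl⟩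
  obtain ⟨r, ⟨H, _, _, _, u, hu, rfl⟩, hr2⟩ := exists_lt_of_lt_csSup hne2 hr
  have hA := adm_of (bas n) x hx u hu
  have hT := hr2.trans_le (opNorm_le_of (bas n) x u)
  have hT2 := core_boundF (K := HK m H) (bas n) _ _ hA
  have hg : (1 : ℝ) ≤ ((n : ℝ) + 1) / 2 := by
    have : (1 : ℝ) ≤ n := by exact_mod_cast hn
    linarith
  obtain ⟨ξ, η, h1, h2, h3, h4, h5⟩ := vectors _ hg hε hε1 hT2 hT
  have e : (((((n : ℝ) + 1) / 2 : ℝ)) : ℂ) = gam n := by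
    unfold gam
    push_cast
    ring
  rw [e] at h3 h4
  refine ⟨HK m H, inferInstance, inferInstance, inferInstance, _, _, ξ, η, dat_of hA, h1, h2, h3,
    h4.trans (le_of_eq (by ring)), h5⟩

end NRM

open NRM in
theorem t_NRM : S_NRM := by
  intro n hn h
  have hp : ∀ t : ℕ, (0 : ℝ) < 1 / (4 * ((t : ℝ) + 1)) := fun t => by positivity
  have hq : ∀ t : ℕ, (1 : ℝ) / (4 * ((t : ℝ) + 1)) ≤ 1 / 4 := fun t => by
    apply one_div_le_one_div_of_le (by norm_num)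
    have : (0 : ℝ) ≤ t := Nat.cast_nonneg t
    linarith
  have key := fun t : ℕ => near hn h _ (hp t) (hq t)
  choose K i1 i2 i3 M v ξ η h1 h2 h3 h4 h5 h6 using key
  refine ⟨K, i1, i2, i3, M, v, ξ, η, ⟨h1, h2, h3, ?_, ?_⟩, ?_⟩
  · unfold Small
    simp only [h4, sub_self, norm_zero]
    exact tendsto_const_nhds
  · unfold Small
    have hlim : Tendsto (fun t : ℕ => Real.sqrt (((n : ℝ) + 1) * (1 / (4 * ((t : ℝ) + 1)))))
        atTop (𝓝 0) := by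
      have h7 : Tendsto (fun t : ℕ => ((n : ℝ) + 1) * (1 / (4 * ((t : ℝ) + 1)))) atTop (𝓝 0) := by
        have h8 := (tendsto_one_div_add_atTop_nhds_zero_nat (𝕜 := ℝ)).const_mul
          (((n : ℝ) + 1) / 4)
        rw [mul_zero] at h8
        refine h8.congr fun t => ?_
        have : (t : ℝ) + 1 ≠ 0 := by positivity
        field_simp
      have h9 := (Real.continuous_sqrt.tendsto 0).comp h7
      rwa [Real.sqrt_zero] at h9
    refine squeeze_zero (fun t => norm_nonneg _) (fun t => ?_) hlim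
    exact Real.le_sqrt_of_sq_le (h5 t)
  · intro hs
    unfold Small at hs
    have h7 := hs.pow 2
    rw [zero_pow two_ne_zero] at h7
    have h8 := ge_of_tendsto' h7 h6
    norm_num at h8

end Pool.Agent.K6.H97.AE
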