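import Pool.Agent.K6.H97.AE.Stm

set_option autoImplicit false

open scoped InnerProductSpace

namespace Pool.Agent.K6.H97.AE

theorem t_POS : S_POS := by
  intro K _ _ _ M v hM hv hc hc' ξ η
  have hstar : ‖star v (v η)‖ ≤ ‖v η‖ := by
    calc ‖star v (v η)‖ ≤ ‖star v‖ * ‖v η‖ := (star v).le_opNorm _
      _ ≤ 1 * ‖v η‖ := by rw [norm_star]; gcongr
      _ = _ := one_mul _
  constructor
  · have : ‖star v (v η)‖ ^ 2 ≤ ‖v η‖ ^ 2 := by gcongr
    linarith
  · have e1 : M (v (star v (v η))) = v (M (star v (v η))) := by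
      have := congrArg (fun T : K →L[ℂ] K => T (star v (v η))) hc
      exact this
    have e2 : ⟪ξ, M (v (star v (v η)))⟫_ℂ = ⟪star v ξ, M (star v (v η))⟫_ℂ := by
      rw [e1, ContinuousLinearMap.star_eq_adjoint v, ContinuousLinearMap.adjoint_inner_left]
    have e3 : ‖star v ξ - M (star v (v η))‖ ^ 2 = ‖star v ξ‖ ^ 2 -
        2 * (⟪star v ξ, M (star v (v η))⟫_ℂ).re + ‖M (star v (v η))‖ ^ 2 := by
      rw [@norm_sub_sq ℂ]
      rfl
    have e4 : ‖M (star v (v η))‖ ≤ ‖star v (v η)‖ := by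
      calc ‖M (star v (v η))‖ ≤ ‖M‖ * ‖star v (v η)‖ := M.le_opNorm _
        _ ≤ 1 * ‖star v (v η)‖ := by gcongr
        _ = _ := one_mul _
    have e5 : ‖M (star v (v η))‖ ^ 2 ≤ ‖star v (v η)‖ ^ 2 := by gcongr
    rw [e2, e3]
    linarith

end Pool.Agent.K6.H97.AE
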