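import Pool.Agent.K6.H97.AE.Stm

set_option autoImplicit false

namespace Pool.Agent.K6.H97.AE

theorem t_QUO : S_QUO := by
  intro R _ I h0 hadd hl hr
  have hneg : ∀ p, I p → I (-p) := by
    intro p hp
    have := hl p (-1) hp
    rwa [neg_one_mul] at this
  let T : TwoSidedIdeal R := TwoSidedIdeal.mk' {p | I p} h0 (fun {x y} hx hy => hadd x y hx hy)
    (fun {x} hx => hneg x hx) (fun {x y} hy => hl y x hy) (fun {x y} hx => hr x y hx)
  refine ⟨T.ringCon.Quotient, inferInstance, T.ringCon.mk', fun p => ?_⟩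
  have h1 : T.ringCon.mk' p = 0 ↔ T.ringCon p 0 := by
    rw [← map_zero T.ringCon.mk']
    exact RingCon.eq _
  rw [h1, ← TwoSidedIdeal.mem_iff]
  exact TwoSidedIdeal.mem_mk' _ _ _ _ _ _ _

end Pool.Agent.K6.H97.AE
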