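import Pool.Agent.K6.H97.AE.Stm

set_option autoImplicit false

open Filter Topology ComplexConjugate
open scoped InnerProductSpace

namespace Pool.Agent.K6.H97.AE

namespace REL

section small

variable {K : ℕ → Type} [∀ t, NormedAddCommGroup (K t)]
    [∀ t, InnerProductSpace ℂ (K t)]

lemma sadd {x y : ∀ t, K t} (hx : Small x) (hy : Small y) : Small (fun t => x t + y t) := by
  refine squeeze_zero (fun t => norm_nonneg _) (fun t => norm_add_le _ _) ?_
  simpa using Tendsto.add hx hy

lemma ssmul {x : ∀ t, K t} (c : ℂ) (hx : Small x) : Small (fun t => c • x t) := by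
  have h := Tendsto.const_mul ‖c‖ hx
  rw [mul_zero] at h
  refine h.congr (fun t => ?_)
  simp only [norm_smul]

lemma ssub {x y : ∀ t, K t} (hx : Small x) (hy : Small y) : Small (fun t => x t - y t) := by
  refine squeeze_zero (fun t => norm_nonneg _) (fun t => norm_sub_le _ _) ?_
  simpa using Tendsto.add hx hy

lemma scongr {x y : ∀ t, K t} (hx : Small x) (h : ∀ t, x t = y t) : Small y := by
  have : x = y := funext h
  rw [← this]
  exact hx

lemma sclm {x : ∀ t, K t} (A : ∀ t, K t →L[ℂ] K t) (C : ℝ) (hA : ∀ t, ‖A t‖ ≤ C)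
    (hx : Small x) : Small (fun t => A t (x t)) := by
  refine squeeze_zero (fun t => norm_nonneg _) (fun t => ?_)
    (g := fun t => C * ‖x t‖) ?_
  · exact ((A t).le_opNorm _).trans (mul_le_mul_of_nonneg_right (hA t) (norm_nonneg _))
  · have h := Tendsto.const_mul C hx
    rwa [mul_zero] at h

lemma szero : Small (fun t => (0 : K t)) := by
  unfold Small
  simp

lemma ssum {ι : Type} (s : Finset ι) (x : ι → ∀ t, K t) (h : ∀ i ∈ s, Small (x i)) :
    Small (fun t => ∑ i ∈ s, x i t) := by
  classical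
  induction s using Finset.induction_on with
  | empty => simpa using szero
  | insert a s ha ih =>
    have h1 := sadd (h a (Finset.mem_insert_self _ _))
      (ih (fun i hi => h i (Finset.mem_insert_of_mem hi)))
    refine scongr h1 (fun t => ?_)
    rw [Finset.sum_insert ha]

end small

section one

variable {K : Type} [NormedAddCommGroup K] [InnerProductSpace ℂ K] [CompleteSpace K] {n : ℕ}

lemma lc_single (v : Fin n → K →L[ℂ] K) (k : Fin n) : lc (Pi.single k (1 : ℂ)) v = v k := by
  classical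
  unfold lc
  rw [Finset.sum_eq_single k]
  · simp
  · intro b _ hb
    simp [Pi.single_eq_of_ne hb]
  · simp

lemma sum_single (k : Fin n) : ∑ j, ‖(Pi.single k (1 : ℂ) : Fin n → ℂ) j‖ ^ 2 = 1 := by
  classical
  rw [Finset.sum_eq_single k]
  · simp
  · intro b _ hb
    simp [Pi.single_eq_of_ne hb]
  · simp

lemma norm_v {M v : Fin n → K →L[ℂ] K} (h : Dat M v) (k : Fin n) : ‖v k‖ ≤ 1 := by
  have h1 := h.hv (Pi.single k 1)
  rw [lc_single, sum_single] at h1
  nlinarith [norm_nonneg (v k)]

lemma norm_M {M v : Fin n → K →L[ℂ] K} (h : Dat M v) (k : Fin n) : ‖M k‖ ≤ 1 := by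
  have h1 := h.hM (Pi.single k 1)
  rw [lc_single, sum_single] at h1
  nlinarith [norm_nonneg (M k)]

lemma norm_star_le {A : K →L[ℂ] K} {C : ℝ} (h : ‖A‖ ≤ C) : ‖star A‖ ≤ C := by
  rwa [norm_star]

lemma norm_TT {M v : Fin n → K →L[ℂ] K} (h : Dat M v) : ‖TT M v‖ ≤ n := by
  unfold TT
  calc ‖∑ k, M k * v k‖ ≤ ∑ k : Fin n, (1 : ℝ) := by
        refine norm_sum_le_of_le _ (fun k _ => ?_)
        calc ‖M k * v k‖ ≤ ‖M k‖ * ‖v k‖ := norm_mul_le _ _
          _ ≤ 1 * 1 := mul_le_mul (norm_M h k) (norm_v h k) (norm_nonneg _) zero_le_one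
          _ = 1 := by norm_num
    _ = n := by simp

lemma rho_ff (v : Fin n → K →L[ℂ] K) (i j : Fin n) : rho v (ff i j) = star (v i) * v j := by
  simp [rho, ff]

end one

/-- polarisation over the fourth roots of unity -/
lemma polar {A : Type} [Ring A] [Algebra ℂ A] (a b a' b' : A) :
    (a + b) * (a' + b') * (a + b) +
      (a + Complex.I • b) * (a' + (-Complex.I) • b') * (a + Complex.I • b) +
      (a + (-1 : ℂ) • b) * (a' + (-1 : ℂ) • b') * (a + (-1 : ℂ) • b) +
      (a + (-Complex.I) • b) * (a' + Complex.I • b') * (a + (-Complex.I) • b) =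
    (4 : ℂ) • (a * a' * a + a * b' * b + b * b' * a) := by
  simp only [mul_add, add_mul, smul_mul_assoc, mul_smul_comm, smul_smul, neg_smul, neg_mul,
    mul_neg, Complex.I_mul_I, smul_add, smul_neg, neg_neg, one_smul]
  module


section two

variable {n : ℕ}

lemma z_norm (k l : Fin n) (hkl : k ≠ l) (ω : ℂ) (hω : ‖ω‖ = 1) (s : ℝ) (hs : s ^ 2 = 1 / 2) :
    ∑ j, ‖(Pi.single k (s : ℂ) + Pi.single l ((s : ℂ) * ω) : Fin n → ℂ) j‖ ^ 2 = 1 := by
  classical
  have h : ∀ j : Fin n, ‖(Pi.single k (s : ℂ) + Pi.single l ((s : ℂ) * ω) : Fin n → ℂ) j‖ ^ 2 =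
      (if j = k then s ^ 2 else 0) + (if j = l then s ^ 2 else 0) := by
    intro j
    by_cases h1 : j = k
    · subst h1
      simp [Pi.single_eq_of_ne hkl, hkl]
    · by_cases h2 : j = l
      · subst h2
        simp [Pi.single_eq_of_ne h1, h1, hω]
      · simp [h1, h2, Pi.single_eq_of_ne h1, Pi.single_eq_of_ne h2]
  rw [Finset.sum_congr rfl (fun j _ => h j), Finset.sum_add_distrib, Finset.sum_ite_eq',
    Finset.sum_ite_eq']
  simp [hs]
  norm_num

lemma lc_two {K : Type} [NormedAddCommGroup K] [InnerProductSpace ℂ K]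
    (v : Fin n → K →L[ℂ] K) (k l : Fin n) (c d : ℂ) :
    lc (Pi.single k c + Pi.single l d) v = c • v k + d • v l := by
  classical
  unfold lc
  simp only [Pi.add_apply, add_smul, Finset.sum_add_distrib]
  congr 1
  · rw [Finset.sum_eq_single k]
    · simp
    · intro b _ hb
      simp [Pi.single_eq_of_ne hb]
    · simp
  · rw [Finset.sum_eq_single l]
    · simp
    · intro b _ hb
      simp [Pi.single_eq_of_ne hb]
    · simp

variable {K : ℕ → Type} [∀ t, NormedAddCommGroup (K t)]
    [∀ t, InnerProductSpace ℂ (K t)] [∀ t, CompleteSpace (K t)]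

lemma small_pol (v : ∀ t, Fin n → (K t →L[ℂ] K t)) (η : ∀ t, K t)
    (hKL : ∀ z : Fin n → ℂ, ∑ k, ‖z k‖ ^ 2 = 1 →
      Small (fun t => lc z (v t) (star (lc z (v t)) (lc z (v t) (η t))) - lc z (v t) (η t)))
    (k l : Fin n) (hkl : k ≠ l) (ω : ℂ) (hω : ‖ω‖ = 1) :
    Small (fun t => ((v t k + ω • v t l) * (star (v t k) + (conj ω) • star (v t l)) *
      (v t k + ω • v t l)) (η t) - (2 : ℂ) • (v t k + ω • v t l) (η t)) := by
  obtain ⟨s, hs0, hs⟩ : ∃ s : ℝ, 0 < s ∧ s ^ 2 = 1 / 2 :=
    ⟨Real.sqrt (1 / 2), by positivity, Real.sq_sqrt (by norm_num)⟩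
  have h1 := ssmul (2 / (s : ℂ)) (hKL _ (z_norm k l hkl ω hω s hs))
  refine scongr h1 (fun t => ?_)
  have hsc : (s : ℂ) ≠ 0 := by exact_mod_cast hs0.ne'
  have hs2 : (s : ℂ) ^ 2 = 1 / 2 := by
    have : ((s ^ 2 : ℝ) : ℂ) = ((1 / 2 : ℝ) : ℂ) := by rw [hs]
    simpa using this
  have e1 : lc (Pi.single k (s : ℂ) + Pi.single l ((s : ℂ) * ω)) (v t) =
      (s : ℂ) • (v t k + ω • v t l) := by
    rw [lc_two, smul_add, smul_smul]
  have e2 : star (lc (Pi.single k (s : ℂ) + Pi.single l ((s : ℂ) * ω)) (v t)) =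
      (s : ℂ) • (star (v t k) + (conj ω) • star (v t l)) := by
    rw [e1, star_smul, star_add, star_smul]
    simp
  rw [e2, e1]
  simp only [ContinuousLinearMap.smul_apply, map_smul, ContinuousLinearMap.mul_apply, smul_sub,
    smul_smul]
  congr 1
  · congr 1
    have : 2 / (s : ℂ) * ((s : ℂ) * ((s : ℂ) * (s : ℂ))) = 2 * (s : ℂ) ^ 2 := by
      field_simp
    first
    | rw [this, hs2]; norm_num
    | (field_simp; rw [hs2]; norm_num)
  · congr 1
    field_simp

end two


section three

variable {n : ℕ} {K : ℕ → Type} [∀ t, NormedAddCommGroup (K t)]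
    [∀ t, InnerProductSpace ℂ (K t)] [∀ t, CompleteSpace (K t)]

/-- `v_k F_ll η + v_l F_lk η ≈ v_k η` -/
lemma pol_rel (v : ∀ t, Fin n → (K t →L[ℂ] K t)) (η : ∀ t, K t)
    (hKL : ∀ z : Fin n → ℂ, ∑ k, ‖z k‖ ^ 2 = 1 →
      Small (fun t => lc z (v t) (star (lc z (v t)) (lc z (v t) (η t))) - lc z (v t) (η t)))
    (k l : Fin n) (hkl : k ≠ l) :
    Small (fun t => (v t k * star (v t l) * v t l + v t l * star (v t l) * v t k) (η t) -
      v t k (η t)) := by
  have p1 := small_pol v η hKL k l hkl 1 (by simp)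
  have p2 := small_pol v η hKL k l hkl Complex.I (by simp)
  have p3 := small_pol v η hKL k l hkl (-1) (by simp)
  have p4 := small_pol v η hKL k l hkl (-Complex.I) (by simp)
  have p5 := ssmul (1 / 4 : ℂ) (sadd (sadd (sadd p1 p2) p3) p4)
  have p6 := hKL _ (sum_single k)
  refine scongr (ssub p5 p6) (fun t => ?_)
  have e := polar (v t k) (v t l) (star (v t k)) (star (v t l))
  have e' := congrArg (fun A : K t →L[ℂ] K t => A (η t)) e
  simp only [ContinuousLinearMap.add_apply, ContinuousLinearMap.smul_apply] at e'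
  rw [lc_single]
  simp only [one_smul, map_one, map_neg, Complex.conj_I, neg_neg]
  simp only [ContinuousLinearMap.add_apply, ContinuousLinearMap.smul_apply]
  have e2 : (v t k * star (v t k) * v t k) (η t) = v t k (star (v t k) (v t k (η t))) := rfl
  rw [← e2]
  set X1 := ((v t k + v t l) * (star (v t k) + star (v t l)) * (v t k + v t l)) (η t)
  set X2 := ((v t k + Complex.I • v t l) * (star (v t k) + -Complex.I • star (v t l)) *
    (v t k + Complex.I • v t l)) (η t)
  set X3 := ((v t k + (-1 : ℂ) • v t l) * (star (v t k) + (-1 : ℂ) • star (v t l)) *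
    (v t k + (-1 : ℂ) • v t l)) (η t)
  set X4 := ((v t k + -Complex.I • v t l) * (star (v t k) + Complex.I • star (v t l)) *
    (v t k + -Complex.I • v t l)) (η t)
  set a := v t k (η t)
  set b := v t l (η t)
  have e3 : X1 + X2 + X3 + X4 = (4 : ℂ) • ((v t k * star (v t k) * v t k) (η t) +
      (v t k * star (v t l) * v t l) (η t) + (v t l * star (v t l) * v t k) (η t)) := e'
  have e4 : (1 / 4 : ℂ) • (X1 - (2 : ℂ) • (a + b) + (X2 - (2 : ℂ) • (a + Complex.I • b)) +
      (X3 - (2 : ℂ) • (a + (-1 : ℂ) • b)) + (X4 - (2 : ℂ) • (a + -Complex.I • b))) =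
      (1 / 4 : ℂ) • (X1 + X2 + X3 + X4) - (2 : ℂ) • a := by
    module
  rw [e4, e3]
  module

end three

end REL

theorem t_REL : S_REL := by
  intro n hn K _ _ _ M v ξ η hSD hKL hC3 hadd hleft hright
  have nv : ∀ t k, ‖v t k‖ ≤ 1 := fun t k => REL.norm_v (hSD.dat t) k
  have nvs : ∀ t k, ‖star (v t k)‖ ≤ 1 := fun t k => REL.norm_star_le (nv t k)
  have R2 : ∀ k l : Fin n, k ≠ l → InI v η (ff k k * ff l l + ff k l * ff l k - ff k k) := by
    intro k l hkl
    have h1 := REL.sclm (fun t => star (v t k)) 1 (fun t => nvs t k)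
      (REL.pol_rel v η hKL k l hkl)
    refine REL.scongr h1 (fun t => ?_)
    simp only [map_sub, map_add, map_mul, REL.rho_ff, ContinuousLinearMap.sub_apply,
      ContinuousLinearMap.add_apply, ContinuousLinearMap.mul_apply]
  refine ⟨?_, R2, ?_, ?_⟩
  · intro k
    have h1 := hKL _ (REL.sum_single k)
    have h2 := REL.sclm (fun t => star (v t k)) 1 (fun t => nvs t k) h1
    refine REL.scongr h2 (fun t => ?_)
    rw [REL.lc_single]
    simp only [map_sub, map_mul, REL.rho_ff, ContinuousLinearMap.sub_apply,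
      ContinuousLinearMap.mul_apply]
  · intro k l hkl
    have h1 := hright _ (ff l l * ff k k + ff k l * ff l k - ff k k) (R2 k l hkl)
    have hs : ∀ t, star (rho (v t) (ff l l * ff k k + ff k l * ff l k - ff k k)) =
        rho (v t) (ff k k * ff l l + ff k l * ff l k - ff k k) := by
      intro t
      simp only [map_sub, map_add, map_mul, REL.rho_ff, star_sub, star_add, star_mul, star_star]
    have h2 : Tendsto (fun t => Real.sqrt
        ‖rho (v t) ((ff k k * ff l l + ff k l * ff l k - ff k k) *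
          (ff l l * ff k k + ff k l * ff l k - ff k k)) (η t)‖) atTop (𝓝 0) := by
      have h3 := (Real.continuous_sqrt.tendsto 0).comp h1
      rw [Real.sqrt_zero] at h3
      exact h3
    refine squeeze_zero (fun t => norm_nonneg _) (fun t => ?_) h2
    apply Real.le_sqrt_of_sq_le
    have h4 : ‖rho (v t) (ff l l * ff k k + ff k l * ff l k - ff k k) (η t)‖ ^ 2 =
        (⟪rho (v t) ((ff k k * ff l l + ff k l * ff l k - ff k k) *
          (ff l l * ff k k + ff k l * ff l k - ff k k)) (η t), η t⟫_ℂ).re := by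
      rw [map_mul, ← hs t, ContinuousLinearMap.mul_apply]
      rw [ContinuousLinearMap.star_eq_adjoint, ContinuousLinearMap.adjoint_inner_left]
      rw [inner_self_eq_norm_sq_to_K]
      norm_cast
    rw [h4]
    calc _ ≤ ‖⟪rho (v t) ((ff k k * ff l l + ff k l * ff l k - ff k k) *
          (ff l l * ff k k + ff k l * ff l k - ff k k)) (η t), η t⟫_ℂ‖ := Complex.re_le_norm _
      _ ≤ ‖rho (v t) ((ff k k * ff l l + ff k l * ff l k - ff k k) *
          (ff l l * ff k k + ff k l * ff l k - ff k k)) (η t)‖ * ‖η t‖ := norm_inner_le_norm _ _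
      _ ≤ _ * 1 := mul_le_mul_of_nonneg_left (hSD.hη t) (norm_nonneg _)
      _ = _ := mul_one _
  · -- `T^* T η ≈ gam² η`
    have h1 := REL.sclm (fun t => star (TT (M t) (v t))) (n : ℝ)
      (fun t => REL.norm_star_le (REL.norm_TT (hSD.dat t))) hSD.h1
    have h2 := REL.sadd h1 (REL.ssmul (gam n) hSD.h2)
    have h3 : Small (fun t => ∑ k, ∑ l, star (v t k) (v t l (star (v t l) (v t k (η t)) -
        star (M t k) (M t l (η t))))) := by
      refine REL.ssum _ _ (fun k _ => REL.ssum _ _ (fun l _ => ?_))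
      exact REL.sclm _ 1 (fun t => nvs t k) (REL.sclm _ 1 (fun t => nv t l) (hC3 l k))
    refine REL.scongr (REL.sadd h3 h2) (fun t => ?_)
    have c1 : ∀ k l, (M t k) * v t l = v t l * M t k := (hSD.dat t).hc
    have c2 : ∀ k l, star (M t k) * v t l = v t l * star (M t k) := by
      intro k l
      have h := congrArg star ((hSD.dat t).hc' k l)
      rw [star_mul, star_mul, star_star] at h
      exact h.symm
    have e1 : star (TT (M t) (v t)) * TT (M t) (v t) =
        ∑ k, ∑ l, star (v t k) * v t l * (star (M t k) * M t l) := by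
      unfold TT
      rw [star_sum, Finset.sum_mul_sum]
      refine Finset.sum_congr rfl (fun k _ => Finset.sum_congr rfl (fun l _ => ?_))
      rw [star_mul, c1 l l]
      calc star (v t k) * star (M t k) * (v t l * M t l) =
          star (v t k) * (star (M t k) * v t l) * M t l := by simp only [mul_assoc]
        _ = _ := by rw [c2]; simp only [mul_assoc]
    have e2 := congrArg (fun A : K t →L[ℂ] K t => A (η t)) e1
    simp only [ContinuousLinearMap.mul_apply, ContinuousLinearMap.sum_apply] at e2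
    simp only [map_sub, map_sum, map_mul, REL.rho_ff, AlgHom.commutes,
      ContinuousLinearMap.sub_apply, ContinuousLinearMap.sum_apply,
      ContinuousLinearMap.mul_apply, map_smul, Finset.sum_sub_distrib] at *
    rw [e2]
    rw [Algebra.algebraMap_eq_smul_one]
    simp only [ContinuousLinearMap.smul_apply, ContinuousLinearMap.one_apply, pow_two, mul_smul,
      smul_sub]
    abel

end Pool.Agent.K6.H97.AE

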