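import Pool.Agent.K6.H97.AE.Stm

set_option autoImplicit false

/-! # ROT: rotation of the coordinates (piece by helper33) -/

open Filter Topology ComplexConjugate
open scoped InnerProductSpace

namespace Pool.Agent.K6.H97.AE

namespace ROT

theorem exists_basis (n : ℕ) (z : Fin n → ℂ) (hz : ∑ k, ‖z k‖ ^ 2 = 1) :
    ∃ (b : OrthonormalBasis (Fin n) ℂ (EuclideanSpace ℂ (Fin n))) (k : Fin n),
      ∀ l, b k l = z l := by
  have hn : 0 < n := by
    rcases Nat.eq_zero_or_pos n with h | h
    · subst h; simp at hz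
    · exact h
  set zz : EuclideanSpace ℂ (Fin n) := WithLp.toLp 2 z with hzz
  have h1 : ‖zz‖ = 1 := by
    rw [EuclideanSpace.norm_eq]
    simp [hzz, hz]
  have h2 : Orthonormal ℂ (({(⟨0, hn⟩ : Fin n)} : Set (Fin n)).domRestrict fun _ => zz) := by
    constructor
    · intro i
      exact h1
    · intro i j hij
      exact absurd (Subsingleton.elim i j) hij
  obtain ⟨b, hb⟩ := h2.exists_orthonormalBasis_extension_of_card_eq (by simp)
  refine ⟨b, ⟨0, hn⟩, fun l => ?_⟩
  rw [hb _ rfl]

variable {n : ℕ} (b : OrthonormalBasis (Fin n) ℂ (EuclideanSpace ℂ (Fin n)))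

theorem delta (k l : Fin n) : ∑ i, conj (b i k) * b i l = if k = l then 1 else 0 := by
  have h := b.sum_repr' (EuclideanSpace.single k (1 : ℂ))
  have h2 := congrArg (fun x : EuclideanSpace ℂ (Fin n) => x l) h
  simp only [WithLp.ofLp_sum, Finset.sum_apply, PiLp.smul_apply, EuclideanSpace.inner_single_right,
    one_mul, smul_eq_mul, PiLp.single_apply] at h2
  rw [h2]
  simp [eq_comm]

theorem norm_comb (a : Fin n → ℂ) : ∑ l, ‖∑ i, a i * b i l‖ ^ 2 = ∑ i, ‖a i‖ ^ 2 := by
  have h1 : ‖∑ i, a i • b i‖ ^ 2 = ∑ i, ‖a i‖ ^ 2 := by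
    have h2 : ∑ i, a i • b i = b.repr.symm (WithLp.toLp 2 a) := by
      rw [← b.sum_repr_symm]
    rw [h2, b.repr.symm.norm_map, EuclideanSpace.norm_sq_eq]
  rw [← h1, EuclideanSpace.norm_sq_eq]
  refine Finset.sum_congr rfl fun l _ => ?_
  simp [WithLp.ofLp_sum]

theorem lc_lc {A : Type} [AddCommMonoid A] [Module ℂ A] (a : Fin n → ℂ) (u : Fin n → Fin n → ℂ)
    (w : Fin n → A) : lc a (fun i => lc (u i) w) = lc (fun l => ∑ i, a i * u i l) w := by
  simp only [lc, Finset.smul_sum, Finset.sum_smul, mul_smul]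
  rw [Finset.sum_comm]

end ROT

open ROT in
theorem t_ROT : S_ROT := by
  intro K _ _ _ n M v hD z hz
  obtain ⟨b, k, hb⟩ := exists_basis n z hz
  have hbz : (fun l => b k l) = z := funext hb
  have hst : ∀ l, star (lc (fun j => b l j) v) = lc (cj fun j => b l j) (fun j => star (v j)) := by
    intro l
    simp only [lc, cj, star_sum, star_smul]
    rfl
  have hcm : ∀ i l, Commute (lc (cj fun j => b i j) M) (lc (fun j => b l j) v) := by
    intro i l
    refine Commute.sum_left _ _ _ fun j _ => Commute.sum_right _ _ _ fun j' _ => ?_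
    exact ((show Commute (M j) (v j') from hD.hc j j').smul_left _).smul_right _
  have hcm' : ∀ i l, Commute (lc (cj fun j => b i j) M) (star (lc (fun j => b l j) v)) := by
    intro i l
    rw [hst]
    refine Commute.sum_left _ _ _ fun j _ => Commute.sum_right _ _ _ fun j' _ => ?_
    exact ((show Commute (M j) (star (v j')) from hD.hc' j j').smul_left _).smul_right _
  refine ⟨fun i => lc (cj fun j => b i j) M, fun i => lc (fun j => b i j) v, k,
    ⟨fun a => ?_, fun a => ?_, fun i l => (hcm i l), fun i l => hcm' i l⟩, ?_, ?_, ?_⟩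
  · rw [lc_lc a (fun i => cj fun j => b i j) M]
    refine (hD.hM _).trans (le_of_eq ?_)
    have h := norm_comb b (fun i => conj (a i))
    simp only [RCLike.norm_conj] at h
    rw [← h]
    refine Finset.sum_congr rfl fun l _ => ?_
    rw [← RCLike.norm_conj, map_sum]
    congr 2
    refine Finset.sum_congr rfl fun i _ => ?_
    simp [cj]
  · rw [lc_lc a (fun i j => b i j) v]
    exact (hD.hv _).trans (le_of_eq (norm_comb b a))
  · have h : ∀ i, lc (cj fun j => b i j) M * lc (fun j => b i j) v =
        ∑ j, ∑ l, (conj (b i j) * b i l) • (M j * v l) := by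
      intro i
      rw [lc, lc, Finset.sum_mul_sum]
      refine Finset.sum_congr rfl fun j _ => Finset.sum_congr rfl fun l _ => ?_
      rw [smul_mul_smul_comm]
      rfl
    simp only [TT]
    rw [Finset.sum_congr rfl fun i _ => h i, Finset.sum_comm]
    refine Finset.sum_congr rfl fun j _ => ?_
    rw [Finset.sum_comm]
    simp only [← Finset.sum_smul, delta, ite_smul, one_smul, zero_smul]
    simp
  · simp only [hbz]
  · simp only [hbz]

end Pool.Agent.K6.H97.AE
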