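import Pool.Agent.K6.H97.AE.Stm

/-!
# Piece SYM: swap and adjoint
-/

set_option autoImplicit false

open Filter Topology ComplexConjugate
open scoped InnerProductSpace

namespace Pool.Agent.K6.H97.AE

namespace SYM

variable {K : Type} [NormedAddCommGroup K] [InnerProductSpace ℂ K] [CompleteSpace K] {n : ℕ}

theorem star_comm {M v : Fin n → K →L[ℂ] K} (h : Dat M v) (k l : Fin n) :
    v k * star (M l) = star (M l) * v k := by
  have := congrArg star (h.hc' l k)
  simpa only [star_mul, star_star] using this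

theorem swap {M v : Fin n → K →L[ℂ] K} (h : Dat M v) : Dat v M where
  hM := h.hv
  hv := h.hM
  hc k l := (h.hc l k).symm
  hc' k l := star_comm h k l

theorem TT_swap {M v : Fin n → K →L[ℂ] K} (h : Dat M v) : TT v M = TT M v := by
  unfold TT
  exact Finset.sum_congr rfl fun k _ => (h.hc k k).symm

theorem norm_star_lc {M : Fin n → K →L[ℂ] K}
    (h : ∀ a : Fin n → ℂ, ‖lc a M‖ ^ 2 ≤ ∑ k, ‖a k‖ ^ 2) (a : Fin n → ℂ) :
    ‖lc a (fun k => star (M k))‖ ^ 2 ≤ ∑ k, ‖a k‖ ^ 2 := by
  have e : lc a (fun k => star (M k)) = star (lc (cj a) M) := by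
    unfold lc cj
    rw [star_sum]
    refine Finset.sum_congr rfl fun k _ => ?_
    rw [star_smul, Complex.star_def, Complex.conj_conj]
  rw [e, norm_star]
  refine (h (cj a)).trans (le_of_eq (Finset.sum_congr rfl fun k _ => ?_))
  unfold cj
  rw [RCLike.norm_conj]

theorem adj {M v : Fin n → K →L[ℂ] K} (h : Dat M v) :
    Dat (fun k => star (M k)) (fun k => star (v k)) where
  hM := norm_star_lc h.hM
  hv := norm_star_lc h.hv
  hc k l := by
    have := congrArg star (h.hc k l)
    simpa only [star_mul] using this.symm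
  hc' k l := by
    rw [star_star]
    exact (star_comm h l k).symm

theorem TT_adj {M v : Fin n → K →L[ℂ] K} (h : Dat M v) :
    TT (fun k => star (M k)) (fun k => star (v k)) = star (TT M v) := by
  unfold TT
  rw [star_sum]
  refine Finset.sum_congr rfl fun k _ => ?_
  rw [h.hc k k, star_mul]

end SYM

theorem t_SYM : S_SYM := by
  intro n K _ _ _ M v ξ η h
  refine ⟨⟨fun t => SYM.swap (h.dat t), h.hξ, h.hη, ?_, ?_⟩,
    ⟨fun t => SYM.adj (h.dat t), h.hη, h.hξ, ?_, ?_⟩⟩
  · have e : (fun t => TT (v t) (M t) (η t) - gam n • ξ t) =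
        fun t => TT (M t) (v t) (η t) - gam n • ξ t := by
      funext t; rw [SYM.TT_swap (h.dat t)]
    rw [e]; exact h.h1
  · have e : (fun t => star (TT (v t) (M t)) (ξ t) - gam n • η t) =
        fun t => star (TT (M t) (v t)) (ξ t) - gam n • η t := by
      funext t; rw [SYM.TT_swap (h.dat t)]
    rw [e]; exact h.h2
  · have e : (fun t => TT (fun k => star (M t k)) (fun k => star (v t k)) (ξ t) - gam n • η t) =
        fun t => star (TT (M t) (v t)) (ξ t) - gam n • η t := by
      funext t; rw [SYM.TT_adj (h.dat t)]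
    rw [e]; exact h.h2
  · have e : (fun t => star (TT (fun k => star (M t k)) (fun k => star (v t k))) (η t) -
        gam n • ξ t) = fun t => TT (M t) (v t) (η t) - gam n • ξ t := by
      funext t; rw [SYM.TT_adj (h.dat t), star_star]
    rw [e]; exact h.h1

end Pool.Agent.K6.H97.AE
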